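import Pool.Agent.Lib.MP_9cc2ee_lc.All.StepG
import Pool.Agent.Lib.MP_9cc2ee_lc.Base

/-!
Definable subgroups of a free solvable group, and the coding of the integers.
-/

set_option autoImplicit false
set_option linter.unusedSectionVars false

namespace Pool.Agent.Lib.MP_9cc2ee_lc.All

open FirstOrder Set
open scoped commutatorElement

/-- The free solvable group of class `D + 2` and rank `n + 2`. -/
abbrev GD (n D : ℕ) := QK n (D + 2)

/-- Projection to the free solvable group. -/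
def pG (n D : ℕ) : FG n →* GD n D := πk n (D + 2)

variable {n D : ℕ}

theorem pG_surj : Function.Surjective (pG n D) := πk_surj _

theorem pG_eq_one {w : FG n} : pG n D w = 1 ↔ w ∈ derivedSeries (FG n) (D + 2) := πk_eq_one

/-- Projection to a free solvable group of smaller class. -/
def pk (n D k : ℕ) (h : k ≤ D + 2) : GD n D →* QK n k :=
  QuotientGroup.lift _ (πk n k) fun _ hw => πk_eq_one.mpr (derivedSeries_antitone _ h hw)

theorem pk_pG {k : ℕ} (h : k ≤ D + 2) (w : FG n) : pk n D k h (pG n D w) = πk n k w := rfl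

/-- Projection to the free metabelian group. -/
def p2 (n D : ℕ) : GD n D →* Q2 n := pk n D 2 (Nat.le_add_left _ _)

/-- The Magnus maps on the solvable group. -/
noncomputable def dd (n D k : ℕ) (h : k + 1 ≤ D + 2) : Der (GD n D) (QK n k) (Fin (n + 2)) :=
  Aff.der (QuotientGroup.lift _ (magnus (πk n k)) fun w hw => by
    have h := (foxk_ker k w).mpr (πk_eq_one.mpr (derivedSeries_antitone _ h hw))
    exact (Aff.eq_one_iff _ _).mpr ⟨by rw [← fox_π (πk n k)] at h; exact h.1, h.2⟩)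

theorem dd_pG {k : ℕ} (h : k + 1 ≤ D + 2) (w : FG n) : (dd n D k h).π (pG n D w) = πk n k w := by
  rw [← fox_π (πk n k)]; rfl

theorem dd_D {k : ℕ} (h : k + 1 ≤ D + 2) (w : FG n) :
    (dd n D k h).D (pG n D w) = (fox (πk n k)).D w := rfl

theorem dd_π {k : ℕ} (h : k + 1 ≤ D + 2) : (dd n D k h).π = pk n D k (Nat.le_of_succ_le h) := by
  refine MonoidHom.ext fun g => ?_
  obtain ⟨w, rfl⟩ := pG_surj g
  rw [dd_pG, pk_pG]

theorem dd_comp {k : ℕ} (h : k + 1 ≤ D + 2) : (dd n D k h).π.comp (pG n D) = πk n k :=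
  MonoidHom.ext (dd_pG h)

theorem dd_surj {k : ℕ} (h : k + 1 ≤ D + 2) : Function.Surjective (dd n D k h).π := fun q => by
  obtain ⟨w, rfl⟩ := πk_surj k q
  exact ⟨_, dd_pG h w⟩

theorem dd_ker {k : ℕ} (h : k + 1 ≤ D + 2) (g : GD n D) :
    ((dd n D k h).π g = 1 ∧ (dd n D k h).D g = 0) ↔ pk n D (k + 1) h g = 1 := by
  obtain ⟨w, rfl⟩ := pG_surj g
  rw [dd_pG, dd_D, pk_pG, foxk_ker]

theorem pk_top (g : GD n D) : pk n D (D + 2) le_rfl g = g := by
  obtain ⟨w, rfl⟩ := pG_surj g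
  rfl

theorem pk_iff {k : ℕ} (h : k + 1 ≤ D + 2) (g : GD n D) :
    pk n D k (Nat.le_of_succ_le h) g = 1 ↔ pk n D (k + 1) h ⁅g, pG n D (zk n k)⁆ = 1 := by
  obtain ⟨w, rfl⟩ := pG_surj g
  rw [← map_commutatorElement, pk_pG, pk_pG]
  refine ⟨fun h1 => πk_comm h1 (zk_one k), fun h1 => ?_⟩
  by_contra h2
  exact zk_D k ((fox (πk n k)).D_eq_zero_of_commute (by rw [fox_π]; exact πk_not_fin k h2)
    (by rw [fox_π]; exact zk_one k) ((foxk_ker k _).mpr h1).2)

/-- The first Magnus map on the solvable group. -/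
noncomputable def d1 (n D : ℕ) : Der (GD n D) (Q1 n) (Fin (n + 2)) :=
  Aff.der (QuotientGroup.lift _ (magnus (π1 n)) fun w hw => by
    have h := (fox1_ker w).mpr (π2_eq_one.mpr (derivedSeries_antitone _ (Nat.le_add_left _ _) hw))
    exact (Aff.eq_one_iff _ _).mpr ⟨by rw [← fox_π (π1 n)] at h; exact h.1, h.2⟩)

theorem d1_π (w : FG n) : (d1 n D).π (pG n D w) = π1 n w := by
  rw [← fox_π (π1 n)]; rfl

theorem d2_π (w : FG n) : p2 n D (pG n D w) = π2 n w := rfl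

theorem d1_D (w : FG n) : (d1 n D).D (pG n D w) = (fox (π1 n)).D w := rfl

theorem d1_comp : (d1 n D).π.comp (pG n D) = π1 n := MonoidHom.ext d1_π

theorem d1_surj : Function.Surjective (d1 n D).π := fun q => by
  obtain ⟨w, rfl⟩ := π1_surj q
  exact ⟨_, d1_π w⟩

theorem d1_ker (g : GD n D) : ((d1 n D).π g = 1 ∧ (d1 n D).D g = 0) ↔ p2 n D g = 1 := by
  obtain ⟨w, rfl⟩ := pG_surj g
  rw [d1_π, d1_D, d2_π, fox1_ker]

theorem d1_comm (g h : GD n D) : (d1 n D).π ⁅g, h⁆ = 1 := by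
  rw [map_commutatorElement, commutatorElement_eq_one_iff_commute]
  exact mul_comm _ _

theorem d12_eq_iff (g h : GD n D) :
    p2 n D g = p2 n D h ↔ (d1 n D).π g = (d1 n D).π h ∧ (d1 n D).D g = (d1 n D).D h := by
  rw [(d1 n D).eq_iff, d1_ker, map_mul, map_inv, mul_inv_eq_one]

theorem d1_iff (g : GD n D) : (d1 n D).π g = 1 ↔ p2 n D ⁅g, pG n D (zz n)⁆ = 1 := by
  have h1 : (d1 n D).π (pG n D (zz n)) = 1 := by rw [d1_π, π1_zz]
  constructor
  · intro h
    refine (d1_ker _).mp ⟨d1_comm _ _, ?_⟩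
    rw [(d1 n D).D_comm' (d1_comm _ _), h, h1]
    simp
  · intro h
    by_contra h3
    have := (d1 n D).D_eq_zero_of_commute (Q1_not_fin h3) h1 ((d1_ker _).mpr h).2
    rw [d1_D, zz_def] at this
    exact D1_comm_X_ne (by simp) this

instance : Nontrivial (GD n D) :=
  ⟨⟨pG n D (X 0), 1, fun h => π1_X_ne_one 0 (by rw [← d1_π, h, map_one])⟩⟩

theorem cent {y g : GD n D} {j : Fin (n + 2)} (hy : (d1 n D).D y j = 1)
    (h : p2 n D ⁅g, y⁆ = 1) : ∃ k : ℤ, (d1 n D).π g = (d1 n D).π y ^ k := by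
  have h1 := congrFun ((d1_ker _).mpr h).2 j
  rw [(d1 n D).D_comm' (d1_comm _ _)] at h1
  simp only [Pi.add_apply, Pi.smul_apply, smul_eq_mul, hy, mul_one, Pi.zero_apply] at h1
  have h2 : o ((d1 n D).π g) - 1 = (o ((d1 n D).π y) - 1) * (d1 n D).D g j := by
    linear_combination h1
  have h3 := cosetSum_sub_one_mul (Subgroup.mem_zpowers ((d1 n D).π y)) ((d1 n D).D g j)
  rw [← h2, map_sub, ← o_one, o, o, cosetSum_single, cosetSum_single, sub_eq_zero,
    Finsupp.single_left_inj one_ne_zero] at h3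
  have h4 := QuotientGroup.rightRel_apply.mp (Quotient.exact h3.symm)
  rw [inv_one, mul_one] at h4
  obtain ⟨k, hk⟩ := h4
  exact ⟨k, hk.symm⟩

theorem cent_pow (y : GD n D) (k : ℤ) : p2 n D ⁅y ^ k, y⁆ = 1 := by
  rw [commutatorElement_eq_one_iff_commute.mpr ((Commute.refl y).zpow_left k), map_one]

/-- The images of the generators in the solvable group. -/
def xx (i : Fin (n + 2)) : GD n D := pG n D (X i)

theorem d1_xx (i : Fin (n + 2)) : (d1 n D).π (xx i) = xb i := by rw [xx, d1_π, π1_X, xb]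

theorem D_xx (i : Fin (n + 2)) : (d1 n D).D (xx i) = Pi.single i 1 := by rw [xx, d1_D, fox_of]

theorem cent_xx {g : GD n D} {i : Fin (n + 2)} (h : p2 n D ⁅g, xx i⁆ = 1) :
    (d1 n D).π g = xb i ^ (((d1 n D).π g).toAdd i) := by
  obtain ⟨k, hk⟩ := cent (j := i) (by rw [D_xx]; simp) h
  rw [d1_xx] at hk
  rw [hk, xb_pow]
  simp

theorem int_mul_iff (k l m : ℤ) (a : (d1 n D).im d1_surj) (ha : a.1 = (d1 n D).D (pG n D (zz n))) :
    (∃ u v w t : (d1 n D).im d1_surj,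
      (o (xb (0 : Fin (n + 2))) - 1) • u = (o (xb (0 : Fin (n + 2)) ^ l) - 1) • a ∧
      (o (xb (0 : Fin (n + 2))) - 1) • v = (o (xb (0 : Fin (n + 2)) ^ k) - 1) • u ∧
      (o (xb (0 : Fin (n + 2))) - 1) • w = (o (xb (0 : Fin (n + 2)) ^ m) - 1) • a ∧
      v = w + (o (xb (0 : Fin (n + 2))) - 1) • t) ↔ k * l = m := by
  obtain ⟨sk, rk, hk1, hk2⟩ := exists_geom (xb (0 : Fin (n + 2))) k
  obtain ⟨sl, rl, hl1, hl2⟩ := exists_geom (xb (0 : Fin (n + 2))) l
  obtain ⟨sm, rm, hm1, hm2⟩ := exists_geom (xb (0 : Fin (n + 2))) m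
  have hι : Function.Injective ((d1 n D).im d1_surj).subtype := Subtype.val_injective
  have hc := fun v w => N_cancel ((d1 n D).im d1_surj).subtype hι (xb_not_fin 0) (v := v) (w := w)
  set x := o (xb (0 : Fin (n + 2))) with hx
  constructor
  · rintro ⟨u, v, w, t, h1, h2, h3, h4⟩
    rw [← hl1, mul_smul] at h1
    rw [← hk1, mul_smul] at h2
    rw [← hm1, mul_smul] at h3
    rw [hc _ _ h2, hc _ _ h3, hc _ _ h1] at h4
    have h5 := congrFun (congrArg Subtype.val h4) 0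
    have h6 : a.1 0 = 1 - o (xb 1) := by
      rw [ha, d1_D, zz_def, D1_comm_X, π1_X]
      simp [xb]
    simp only [SetLike.val_smul, Pi.smul_apply, smul_eq_mul, Submodule.coe_add, Pi.add_apply,
      h6] at h5
    have h7 : ((k * l - m : ℤ) : ZR (Q1 n)) * (1 - o (xb 1)) = (x - 1) *
        (t.1 0 + (rm - (k : ZR (Q1 n)) * rl - rk * (l : ZR (Q1 n)) - (x - 1) * rk * rl) * (1 - o (xb 1))) := by
      rw [hk2, hl2, hm2] at h5
      push_cast
      linear_combination h5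
    have h8 := cosetSum_sub_one_mul (Subgroup.mem_zpowers (xb (0 : Fin (n + 2))))
      (t.1 0 + (rm - (k : ZR (Q1 n)) * rl - rk * (l : ZR (Q1 n)) - (x - 1) * rk * rl) * (1 - o (xb 1)))
    rw [← h7, ← zsmul_eq_mul, map_zsmul, map_sub, ← o_one, o, o, cosetSum_single,
      cosetSum_single] at h8
    have h9 : (Quotient.mk (QuotientGroup.rightRel (Subgroup.zpowers (xb (0 : Fin (n + 2)))))
        (xb 1)) ≠ Quotient.mk _ 1 := by
      intro h
      have h4 := QuotientGroup.rightRel_apply.mp (Quotient.exact h.symm)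
      rw [inv_one, mul_one] at h4
      obtain ⟨j, hj⟩ := h4
      have := congrFun (congrArg Multiplicative.toAdd hj) 1
      simp [xb] at this
    have h10 := DFunLike.congr_fun h8 (Quotient.mk _ 1)
    simp only [Finsupp.coe_smul, Finsupp.coe_sub, Pi.smul_apply, Pi.sub_apply,
      Finsupp.single_eq_same, Finsupp.single_eq_of_ne h9.symm, sub_zero, smul_eq_mul, mul_one,
      Finsupp.coe_zero, Pi.zero_apply] at h10
    exact sub_eq_zero.mp h10
  · rintro rfl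
    refine ⟨sl • a, sk • sl • a, sm • a, 
      ((k : ZR (Q1 n)) * rl + rk * (l : ZR (Q1 n)) + (x - 1) * rk * rl - rm) • a,
      by rw [← hl1, mul_smul], by rw [← hk1, mul_smul], by rw [← hm1, mul_smul], ?_⟩
    rw [smul_smul, smul_smul, ← add_smul]
    congr 1
    rw [hk2, hl2, hm2]
    push_cast
    ring

section Defs

variable {L : FirstOrder.Language.{0, 0}} [L.Structure (GD n D)] [DefMul L (GD n D) (GD n D)]

theorem def_Nk (i k : ℕ) (h : k + i = D + 2) :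
    DefFun L (GD n D) (fun g : GD n D => pk n D k (Nat.le.intro h) g = 1) := by
  induction i generalizing k with
  | zero =>
    obtain rfl : k = D + 2 := h
    exact DefFun.congr_iff (P := fun g : GD n D => g = 1) (by fun_prop) fun g => by rw [pk_top]
  | succ i ih =>
    exact ((ih (k + 1) (by omega)).comp (g := fun g : GD n D => ⁅g, pG n D (zk n k)⁆)
      (by fun_prop)).congr_iff fun g => (pk_iff (by omega) g).symm

theorem def_pk {k : ℕ} (h : k ≤ D + 2) :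
    DefFun L (GD n D) (fun g : GD n D => pk n D k h g = 1) :=
  def_Nk (D + 2 - k) k (by omega)

theorem def_N2 : DefFun L (GD n D) (fun g : GD n D => p2 n D g = 1) := def_pk _

theorem def_N1 : DefFun L (GD n D) (fun g : GD n D => (d1 n D).π g = 1) :=
  DefFun.congr_iff (P := fun g : GD n D => p2 n D ⁅g, pG n D (zz n)⁆ = 1)
    (def_N2.comp (by fun_prop)) fun g => (d1_iff g).symm

theorem def_eq1 {S : Type} [Enc L (GD n D) S] {f g : S → GD n D} (hf : DefFun L (GD n D) f)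
    (hg : DefFun L (GD n D) g) : DefFun L (GD n D) (fun s => (d1 n D).π (f s) = (d1 n D).π (g s)) :=
  DefFun.congr_iff (P := fun s => (d1 n D).π (f s * (g s)⁻¹) = 1) (def_N1.comp (by fun_prop))
    fun s => by rw [map_mul, map_inv, mul_inv_eq_one]

theorem def_cent {S : Type} [Enc L (GD n D) S] {f : S → GD n D} (hf : DefFun L (GD n D) f) (y : GD n D) :
    DefFun L (GD n D) (fun s => p2 n D ⁅f s, y⁆ = 1) := def_N2.comp (by fun_prop)

theorem exists_encInt : ∃ _ : Enc L (GD n D) ℤ, DefAdd L (GD n D) ℤ ∧ DefMul L (GD n D) ℤ ∧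
    DefFun L (GD n D) (fun p : GD n D × ℤ => (d1 n D).π p.1 = xb 0 ^ p.2) := by
  have hs : ∀ t : ℤ, ∃ s : GD n D, p2 n D ⁅s, xx 0⁆ = 1 ∧ ((d1 n D).π s).toAdd 0 = t := fun t =>
    ⟨xx 0 ^ t, cent_pow _ _, by rw [map_zpow, d1_xx, xb_pow]; simp⟩
  have hD : DefFun L (GD n D) (fun s : GD n D => p2 n D ⁅s, xx 0⁆ = 1) := def_cent DefFun.id _
  have hE : DefFun L (GD n D) (fun p : GD n D × GD n D => p2 n D ⁅p.1, xx 0⁆ = 1 ∧
      p2 n D ⁅p.2, xx 0⁆ = 1 ∧ ((d1 n D).π p.1).toAdd 0 = ((d1 n D).π p.2).toAdd 0) := by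
    refine DefFun.congr_iff (P := fun p : GD n D × GD n D => p2 n D ⁅p.1, xx 0⁆ = 1 ∧
      p2 n D ⁅p.2, xx 0⁆ = 1 ∧ (d1 n D).π p.1 = (d1 n D).π p.2)
      (DefFun.and (def_cent (by fun_prop) _) (DefFun.and (def_cent (by fun_prop) _)
        (def_eq1 (by fun_prop) (by fun_prop)))) fun p => ?_
    refine and_congr_right fun h1 => and_congr_right fun h2 => ⟨fun h => by rw [h], fun h => ?_⟩
    rw [cent_xx h1, cent_xx h2, h]
  let e := Enc.sub (fun s : GD n D => p2 n D ⁅s, xx 0⁆ = 1) (fun s => ((d1 n D).π s).toAdd 0) hs hD hE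
  have hgr0 := Enc.sub_graph (fun s : GD n D => p2 n D ⁅s, xx 0⁆ = 1)
    (fun s => ((d1 n D).π s).toAdd 0) hs hD hE
  have hgr : DefFun L (GD n D) (fun p : GD n D × ℤ => (d1 n D).π p.1 = xb 0 ^ p.2) := by
    refine DefFun.congr_iff (P := fun p : GD n D × ℤ => ∃ g : GD n D,
      (p2 n D ⁅g, xx 0⁆ = 1 ∧ ((d1 n D).π g).toAdd 0 = p.2) ∧ (d1 n D).π p.1 = (d1 n D).π g)
      (DefFun.ex (DefFun.and (DefFun.comp₂ (fun (g : GD n D) (k : ℤ) =>
        p2 n D ⁅g, xx 0⁆ = 1 ∧ ((d1 n D).π g).toAdd 0 = k) hgr0 (by fun_prop) (by fun_prop))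
        (def_eq1 (by fun_prop) (by fun_prop)))) fun p => ?_
    constructor
    · rintro ⟨g, ⟨h1, h2⟩, h3⟩
      rw [h3, cent_xx h1, h2]
    · intro h
      exact ⟨xx 0 ^ p.2, ⟨cent_pow _ _, by rw [map_zpow, d1_xx, xb_pow]; simp⟩,
        by rw [h, map_zpow, d1_xx]⟩
  have hgr' : ∀ {S : Type} [Enc L (GD n D) S] {x : S → GD n D} {y : S → ℤ}, DefFun L (GD n D) x →
      DefFun L (GD n D) y → DefFun L (GD n D) (fun s => (d1 n D).π (x s) = xb 0 ^ y s) := by
    intro S _ x y hx hy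
    exact DefFun.comp₂ (fun (g : GD n D) (k : ℤ) => (d1 n D).π g = xb 0 ^ k) hgr hx hy
  have hinj : Function.Injective fun k : ℤ => xb (0 : Fin (n + 2)) ^ k :=
    injective_zpow_iff_not_isOfFinOrder.mpr (xb_not_fin 0)
  refine ⟨e, ⟨?_⟩, ⟨?_⟩, hgr⟩
  · refine DefFun.of_graph (R := fun p m => ∃ a b : GD n D, (d1 n D).π a = xb 0 ^ p.1 ∧
      (d1 n D).π b = xb 0 ^ p.2 ∧ (d1 n D).π (a * b) = xb 0 ^ m) ?_ ?_
    · refine DefFun.ex (DefFun.ex (DefFun.and (hgr' ?_ ?_) (DefFun.and (hgr' ?_ ?_)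
        (hgr' ?_ ?_)))) <;> fun_prop
    rintro ⟨k, l⟩ m
    constructor
    · rintro ⟨a, b, h1, h2, h3⟩
      rw [map_mul, h1, h2, ← zpow_add] at h3
      exact hinj h3
    · rintro rfl
      exact ⟨xx 0 ^ k, xx 0 ^ l, by rw [map_zpow, d1_xx], by rw [map_zpow, d1_xx],
        by rw [← zpow_add, map_zpow, d1_xx]⟩
  · obtain ⟨e1, hadd, -, hact⟩ := exists_enc (L := L) (d1 n D) d1_surj def_N1
      (def_N2.congr_iff fun g => (d1_ker g).symm)
    have hact' : ∀ {S : Type} [Enc L (GD n D) S] {x : S → GD n D} {y : S → (d1 n D).im d1_surj},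
        DefFun L (GD n D) x → DefFun L (GD n D) y →
        DefFun L (GD n D) (fun s => (o ((d1 n D).π (x s)) - 1) • y s) := by
      intro S _ x y hx hy
      exact def_act_sub hact hx hy
    let a : (d1 n D).im d1_surj := ⟨_, pG n D (zz n), by rw [d1_π, π1_zz], rfl⟩
    refine DefFun.of_graph (R := fun p m => ∃ gk gl gm : GD n D, (d1 n D).π gk = xb 0 ^ p.1 ∧
      (d1 n D).π gl = xb 0 ^ p.2 ∧ (d1 n D).π gm = xb 0 ^ m ∧ ∃ u v w t : (d1 n D).im d1_surj,
      (o ((d1 n D).π (xx 0)) - 1) • u = (o ((d1 n D).π gl) - 1) • a ∧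
      (o ((d1 n D).π (xx 0)) - 1) • v = (o ((d1 n D).π gk) - 1) • u ∧
      (o ((d1 n D).π (xx 0)) - 1) • w = (o ((d1 n D).π gm) - 1) • a ∧
      v = w + (o ((d1 n D).π (xx 0)) - 1) • t) ?_ ?_
    · refine DefFun.ex (DefFun.ex (DefFun.ex (DefFun.and (hgr' ?_ ?_) (DefFun.and (hgr' ?_ ?_)
        (DefFun.and (hgr' ?_ ?_) (DefFun.ex (DefFun.ex (DefFun.ex (DefFun.ex
          (DefFun.and (DefFun.eq (hact' ?_ ?_) (hact' ?_ ?_))
          (DefFun.and (DefFun.eq (hact' ?_ ?_) (hact' ?_ ?_))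
          (DefFun.and (DefFun.eq (hact' ?_ ?_) (hact' ?_ ?_))
          (DefFun.eq ?_ (DefFun.add ?_ (hact' ?_ ?_))))))))))))))) <;> fun_prop
    rintro ⟨k, l⟩ m
    rw [← int_mul_iff k l m a rfl, d1_xx]
    constructor
    · rintro ⟨gk, gl, gm, h1, h2, h3, h4⟩
      rw [h1, h2, h3] at h4
      exact h4
    · intro h
      exact ⟨xx 0 ^ k, xx 0 ^ l, xx 0 ^ m, by rw [map_zpow, d1_xx], by rw [map_zpow, d1_xx],
        by rw [map_zpow, d1_xx], by simpa only [map_zpow, d1_xx] using h⟩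

theorem exists_encNat : ∃ _ : Enc L (GD n D) ℕ, DefAdd L (GD n D) ℕ ∧ DefMul L (GD n D) ℕ ∧
    DefFun L (GD n D) (fun p : GD n D × ℕ => (d1 n D).π p.1 = xb 0 ^ p.2) := by
  obtain ⟨e, hadd, hmul, hgr⟩ := exists_encInt (L := L) (n := n) (D := D)
  have hD : DefFun L (GD n D) (fun k : ℤ => 0 ≤ k) :=
    DefFun.congr_iff (P := fun k : ℤ => ∃ a b c d : ℤ, a * a + b * b + c * c + d * d = k)
      (by fun_prop) nonneg_iff
  have hs : ∀ t : ℕ, ∃ s : ℤ, 0 ≤ s ∧ s.toNat = t := fun t => ⟨t, by simp, by simp⟩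
  have hE : DefFun L (GD n D) (fun p : ℤ × ℤ => 0 ≤ p.1 ∧ 0 ≤ p.2 ∧ p.1.toNat = p.2.toNat) :=
    DefFun.congr_iff (P := fun p : ℤ × ℤ => 0 ≤ p.1 ∧ p.1 = p.2)
      (DefFun.and (hD.comp (by fun_prop)) (by fun_prop)) fun p => by omega
  let e' := Enc.sub (fun k : ℤ => 0 ≤ k) Int.toNat hs hD hE
  have hc : DefFun L (GD n D) (fun k : ℕ => (k : ℤ)) := by
    refine DefFun.of_graph (R := fun k s => 0 ≤ s ∧ s.toNat = k)
      (DefFun.comp₂ (fun (s : ℤ) (k : ℕ) => 0 ≤ s ∧ s.toNat = k)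
        (Enc.sub_graph (fun k : ℤ => 0 ≤ k) Int.toNat hs hD hE) (by fun_prop) (by fun_prop))
      fun k s => by omega
  refine ⟨e', ⟨?_⟩, ⟨?_⟩, ?_⟩
  · exact DefFun.of_graph (R := fun p m => (p.1 : ℤ) + p.2 = (m : ℕ)) (by fun_prop)
      fun p m => by omega
  · exact DefFun.of_graph (R := fun p m => (p.1 : ℤ) * p.2 = (m : ℕ)) (by fun_prop)
      fun p m => by rw [← Nat.cast_mul, Nat.cast_inj]
  · exact (DefFun.comp₂ (fun (g : GD n D) (k : ℤ) => (d1 n D).π g = xb 0 ^ k) hgr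
      (g := fun p : GD n D × ℕ => p.1) (h := fun p : GD n D × ℕ => (p.2 : ℤ)) (by fun_prop)
      (by fun_prop)).congr_iff fun p => by rw [zpow_natCast]

end Defs

end Pool.Agent.Lib.MP_9cc2ee_lc.All
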