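import Pool.Agent.Lib.MP_9cc2ee_lc.All.CodeG
import Pool.Agent.Lib.MP_9cc2ee_lc.Bridge

/-!
The two interpretations for a free solvable group of any class at least two.
-/

set_option autoImplicit false
set_option linter.unusedSectionVars false

namespace Pool.Agent.Lib.MP_9cc2ee_lc.All

open FirstOrder Set
open scoped commutatorElement

theorem biInterp (n D : ℕ) : BiInterpretable Lgrp Lar (GD n D) ℕ := by
  -- the natural numbers inside the group
  obtain ⟨e, hadd, hmul, hgr⟩ := exists_encNat (L := Lgrp) (n := n) (D := D)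
  let DI : GD n D → Prop := fun g => ∃ k : ℕ, (d1 n D).π g = xb 0 ^ k
  let fI : GD n D → ℕ := fun g => (((d1 n D).π g).toAdd 0).toNat
  have hI : ∀ g k, (DI g ∧ fI g = k) ↔ (d1 n D).π g = xb 0 ^ k := by
    have key : ∀ g (k : ℕ), (d1 n D).π g = xb 0 ^ k → fI g = k := by
      intro g k h
      simp only [fI]
      rw [h, ← zpow_natCast, xb_pow]
      simp
    intro g k
    constructor
    · rintro ⟨⟨l, h1⟩, h2⟩
      rw [h1, ← h2, key g l h1]
    · intro h
      exact ⟨⟨k, h⟩, key g k h⟩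
  have hgrI : DefFun Lgrp (GD n D) (fun p : GD n D × ℕ => DI p.1 ∧ fI p.1 = p.2) :=
    hgr.congr_iff fun p => (hI _ _).symm
  let I : Interp Lgrp Lar (GD n D) ℕ := mkInterp DI fI
    (fun k => ⟨xx 0 ^ k, (hI _ _).mpr (by rw [map_pow, d1_xx])⟩) hgrI
    (by
      intro m φ
      cases φ
      · exact DefFun.add (DefFun.eval 0) (DefFun.eval 1)
      · exact DefFun.mul (DefFun.eval 0) (DefFun.eval 1))
    (fun _ => inferInstanceAs (IsEmpty Empty))
  -- the group inside the natural numbers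
  let fJ : ℕ → GD n D := fun m => pG n D (NDec.nd m)
  have hsJ : ∀ g, ∃ m, True ∧ fJ m = g := by
    intro g
    obtain ⟨w, rfl⟩ := pG_surj g
    obtain ⟨m, rfl⟩ := NDec.surj w
    exact ⟨m, trivial, rfl⟩
  have hEJ : DefFun Lar ℕ (fun p : ℕ × ℕ => True ∧ True ∧ fJ p.1 = fJ p.2) := by
    refine DefFun.congr_iff (P := fun p : ℕ × ℕ =>
      (NDec.nd p.1 : FG n) * (NDec.nd p.2)⁻¹ ∈ derivedSeries (FG n) (D + 2))
      ((DefFun.derived (T := FG n) (D + 2)).comp (by fun_prop)) fun p => ?_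
    simp only [← pG_eq_one, map_mul, map_inv, mul_inv_eq_one, fJ, true_and]
  let eJ := Enc.sub (L := Lar) (M := ℕ) (fun _ : ℕ => True) fJ hsJ (DefFun.const True) hEJ
  have hgrJ : DefFun Lar ℕ (fun p : ℕ × GD n D => True ∧ fJ p.1 = p.2) :=
    Enc.sub_graph (fun _ : ℕ => True) fJ hsJ (DefFun.const True) hEJ
  have hfJ : DefFun Lar ℕ fJ := DefFun.of_graph (R := fun s t => True ∧ fJ s = t) hgrJ (by simp)
  have hpG : DefFun Lar ℕ (pG n D : FG n → GD n D) := by
    refine DefFun.of_graph (R := fun w g => ∃ m : ℕ, NDec.nd m = w ∧ fJ m = g) (by fun_prop)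
      fun w g => ?_
    constructor
    · rintro ⟨m, rfl, rfl⟩
      rfl
    · rintro rfl
      obtain ⟨m, rfl⟩ := NDec.surj w
      exact ⟨m, rfl, rfl⟩
  have hmulJ : DefMul Lar ℕ (GD n D) := by
    refine ⟨DefFun.of_graph (R := fun p g => ∃ u v : FG n, pG n D u = p.1 ∧ pG n D v = p.2 ∧
      pG n D (u * v) = g) ?_ ?_⟩
    · refine DefFun.ex (DefFun.ex (DefFun.and (DefFun.eq (hpG.comp ?_) ?_)
        (DefFun.and (DefFun.eq (hpG.comp ?_) ?_) (DefFun.eq (hpG.comp ?_) ?_)))) <;> fun_prop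
    rintro ⟨a, b⟩ g
    constructor
    · rintro ⟨u, v, h1, h2, rfl⟩
      rw [map_mul, h1, h2]
    · rintro rfl
      obtain ⟨u, rfl⟩ := pG_surj a
      obtain ⟨v, rfl⟩ := pG_surj b
      exact ⟨u, v, rfl, rfl, map_mul _ _ _⟩
  let J : Interp Lar Lgrp ℕ (GD n D) := mkInterp (fun _ => True) fJ hsJ hgrJ
    (by
      intro m φ
      cases φ
      · exact DefFun.const (1 : GD n D)
      · exact DefFun.inv (DefFun.eval 0)
      · exact DefFun.mul (DefFun.eval 0) (DefFun.eval 1))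
    (fun _ => inferInstanceAs (IsEmpty Empty))
  refine ⟨I, J, ?_, ?_⟩
  · have h1 := def_pG hgr
    refine definable_of_defFun (κ := Option (Fin 1 × Fin 1)) (DefFun.congr_iff
      (P := fun v : Option (Fin 1 × Fin 1) → GD n D => ∃ k : ℕ,
        (DI (v (some (0, 0))) ∧ fI (v (some (0, 0))) = k) ∧ pG n D (NDec.nd k) = v none)
      (DefFun.ex (DefFun.and (DefFun.comp₂ (fun (g : GD n D) (k : ℕ) => DI g ∧ fI g = k) hgrI
        ((DefFun.eval _).comp DefFun.fst') DefFun.snd')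
        (DefFun.eq (h1.comp (by fun_prop)) ((DefFun.eval _).comp DefFun.fst')))) fun v => ?_)
    constructor
    · rintro ⟨k, ⟨h2, rfl⟩, h3⟩
      exact ⟨Fin.forall_fin_one.mpr h2, trivial, h3⟩
    · rintro ⟨h2, -, h3⟩
      exact ⟨_, ⟨h2 (0 : Fin 1), rfl⟩, h3⟩
  · refine definable_of_defFun (κ := Option (Fin 1 × Fin 1)) (DefFun.congr_iff
      (P := fun v : Option (Fin 1 × Fin 1) → ℕ =>
        (NDec.nd (v (some (0, 0))) : FG n) * (X 0 ^ v none)⁻¹ ∈ derivedSeries (FG n) 1)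
      ((DefFun.derived (T := FG n) 1).comp (DefFun.mul (DefFun.nd (DefFun.eval _))
        (DefFun.inv (DefFun.pow (DefFun.const _) (DefFun.eval _))))) fun v => ?_)
    rw [← π1_eq_one, map_mul, map_inv, mul_inv_eq_one, map_pow, π1_X, ← d1_π]
    refine ((hI _ _).symm.trans ?_)
    exact ⟨fun h => ⟨fun _ => trivial, h⟩, fun h => h.2⟩

end Pool.Agent.Lib.MP_9cc2ee_lc.All
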