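import Pool.Agent.Lib.MP_9cc2ee_lc.All.BaseG

/-!
The evaluation of coded words is definable in every free solvable group of class at least two.
-/

set_option autoImplicit false
set_option linter.unusedSectionVars false

namespace Pool.Agent.Lib.MP_9cc2ee_lc.All

open FirstOrder Set
open scoped commutatorElement

/-- Iterated commutators with a sequence of elements. -/
def itc {G : Type} [Group G] (z : ℕ → G) : ℕ → G → G
  | 0, g => g
  | i + 1, g => ⁅itc z i g, z i⁆

theorem map_itc {G H : Type} [Group G] [Group H] (f : G →* H) (z : ℕ → G) (i : ℕ) (g : G) :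
    f (itc z i g) = itc (fun j => f (z j)) i (f g) := by
  induction i with
  | zero => rfl
  | succ i ih => rw [itc, itc, map_commutatorElement, ih]

theorem pin_itc {G Q κ : Type} [Group G] [Group Q] (d : Der G Q κ) (z : ℕ → G) (i : ℕ)
    (hz : ∀ j < i, ¬ IsOfFinOrder (d.π (z j))) {g w : G} (h1 : d.π g = d.π w)
    (h2 : d.D (itc z i g) = d.D (itc z i w)) : d.D g = d.D w := by
  induction i with
  | zero => exact h2
  | succ i ih =>
    exact ih (fun j hj => hz j (by omega))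
      (d.pin (hz i (by omega)) (by rw [map_itc, map_itc, h1]) h2)

theorem def_itc {L : FirstOrder.Language.{0, 0}} {M : Type} [L.Structure M] [Nontrivial M]
    {G : Type} [Group G] [Enc L M G] [DefMul L M G] (z : ℕ → G) (i : ℕ) :
    DefFun L M (itc z i) := by
  induction i with
  | zero => exact DefFun.id
  | succ i ih => exact DefFun.bracket ih (DefFun.const _)

theorem πk_itc {n : ℕ} (i : ℕ) (w : FG n) : πk n i (itc (zk n) i w) = 1 := by
  induction i with
  | zero => exact πk_eq_one.mpr (by simp)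
  | succ i ih => exact πk_comm ih (zk_one i)

variable {n D : ℕ} {L : FirstOrder.Language.{0, 0}} [L.Structure (GD n D)]
  [DefMul L (GD n D) (GD n D)] [Enc L (GD n D) ℕ] [DefAdd L (GD n D) ℕ] [DefMul L (GD n D) ℕ]

theorem def_xb (hgr : DefFun L (GD n D) (fun p : GD n D × ℕ => (d1 n D).π p.1 = xb 0 ^ p.2))
    (i : Fin (n + 2)) : DefFun L (GD n D) (fun p : GD n D × ℕ => (d1 n D).π p.1 = xb i ^ p.2) := by
  by_cases hi : i = 0
  · subst hi
    exact hgr
  refine DefFun.congr_iff (P := fun p : GD n D × ℕ => ∃ g v h : GD n D, (d1 n D).π g = xb 0 ^ p.2 ∧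
    p2 n D ⁅v, xx i⁆ = 1 ∧ p2 n D ⁅h, xx 0 * xx i⁆ = 1 ∧ (d1 n D).π h = (d1 n D).π (g * v) ∧
    (d1 n D).π p.1 = (d1 n D).π v) ?_ ?_
  · refine DefFun.ex (DefFun.ex (DefFun.ex (DefFun.and
      (DefFun.comp₂ (fun (g : GD n D) (k : ℕ) => (d1 n D).π g = xb 0 ^ k) hgr ?_ ?_)
      (DefFun.and (def_cent ?_ _) (DefFun.and (def_cent ?_ _)
        (DefFun.and (def_eq1 ?_ ?_) (def_eq1 ?_ ?_))))))) <;> fun_prop
  rintro ⟨u, k⟩
  constructor
  · rintro ⟨g, v, h, h1, h2, h3, h4, h5⟩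
    obtain ⟨r, hr⟩ := cent (j := 0) (by
      rw [(d1 n D).D_mul, D_xx, D_xx]
      simp [Pi.single_eq_of_ne (Ne.symm hi)]) h3
    have h6 := cent_xx h2
    rw [map_mul, h1, h6, hr, map_mul, d1_xx, d1_xx, mul_zpow, ← zpow_natCast] at h4
    have h7 := congrFun (congrArg Multiplicative.toAdd h4) 0
    have h8 := congrFun (congrArg Multiplicative.toAdd h4) i
    simp only [toAdd_mul, Pi.add_apply, xb_pow, if_true, hi, Ne.symm hi, if_false, add_zero,
      zero_add] at h7 h8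
    rw [h5, h6, ← h8, h7, zpow_natCast]
  · intro h
    refine ⟨xx 0 ^ k, xx i ^ k, (xx 0 * xx i) ^ k, by rw [map_pow, d1_xx], ?_, ?_, ?_, ?_⟩
    · simpa using cent_pow (xx i) k
    · simpa only [zpow_natCast] using cent_pow (xx 0 * xx i) k
    · simp only [map_pow, map_mul, mul_pow]
    · rw [h, map_pow, d1_xx]

theorem def_pp1 (hgr : DefFun L (GD n D) (fun p : GD n D × ℕ => (d1 n D).π p.1 = xb 0 ^ p.2))
    (gs : List (FG n)) (hgs : ∀ g ∈ gs, g ∈ gens n) :
    DefFun L (GD n D) (fun p : GD n D × List ℕ => (d1 n D).π p.1 = π1 n (pp gs p.2)) := by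
  induction gs with
  | nil =>
    exact (def_N1.comp (g := fun p : GD n D × List ℕ => p.1) (by fun_prop)).congr_iff fun p => by
      simp [pp]
  | cons g gs ih =>
    have ih' := ih fun g' hg' => hgs g' (List.mem_cons_of_mem _ hg')
    have hg : DefFun L (GD n D) (fun p : GD n D × ℕ => (d1 n D).π p.1 = π1 n g ^ p.2) := by
      obtain ⟨i, rfl | rfl⟩ := mem_gens.mp (hgs g List.mem_cons_self)
      · rw [π1_X]
        exact def_xb hgr i
      · refine (DefFun.comp₂ (fun (g : GD n D) (k : ℕ) => (d1 n D).π g = xb i ^ k) (def_xb hgr i)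
          (g := fun p : GD n D × ℕ => p.1⁻¹) (h := fun p : GD n D × ℕ => p.2) (by fun_prop)
          (by fun_prop)).congr_iff fun p => ?_
        rw [map_inv, map_inv, π1_X, inv_pow, inv_eq_iff_eq_inv]
        rfl
    refine DefFun.congr_iff (P := fun p : GD n D × List ℕ => ∃ a b : GD n D,
      (d1 n D).π a = π1 n g ^ (p.2.getI 0) ∧ (d1 n D).π b = π1 n (pp gs p.2.tail) ∧
      (d1 n D).π p.1 = (d1 n D).π (a * b)) ?_ ?_
    · refine DefFun.ex (DefFun.ex (DefFun.and
        (DefFun.comp₂ (fun (a : GD n D) (k : ℕ) => (d1 n D).π a = π1 n g ^ k) hg ?_ ?_)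
        (DefFun.and (DefFun.comp₂ (fun (a : GD n D) (es : List ℕ) => (d1 n D).π a = π1 n (pp gs es))
          ih' ?_ ?_) (def_eq1 ?_ ?_)))) <;> fun_prop
    rintro ⟨u, es⟩
    constructor
    · rintro ⟨a, b, h1, h2, h3⟩
      rw [h3, map_mul, h1, h2, pp, map_mul, map_pow]
    · intro h
      exact ⟨pG n D (g ^ es.getI 0), pG n D (pp gs es.tail), by rw [d1_π, map_pow], d1_π _,
        by rw [h, ← map_mul, d1_π, pp]⟩

theorem def_code1 (hgr : DefFun L (GD n D) (fun p : GD n D × ℕ => (d1 n D).π p.1 = xb 0 ^ p.2)) :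
    DefFun L (GD n D) (fun c : FG n × GD n D => (d1 n D).π (pG n D c.1) = (d1 n D).π c.2) := by
  have h1 := def_pp1 hgr (gens n) fun _ h => h
  have h2 := def_pp (L := L) (M := GD n D) (gens n)
  have h3 := DefFun.derived (L := L) (M := GD n D) (T := FG n) 1
  refine DefFun.congr_iff (P := fun c : FG n × GD n D => ∃ es : List ℕ,
    c.1 * (pp (gens n) es)⁻¹ ∈ derivedSeries (FG n) 1 ∧ (d1 n D).π c.2 = π1 n (pp (gens n) es)) ?_ ?_
  · refine DefFun.ex (DefFun.and (h3.comp ?_) (DefFun.comp₂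
      (fun (a : GD n D) (es : List ℕ) => (d1 n D).π a = π1 n (pp (gens n) es)) h1 ?_ ?_)) <;> fun_prop
  rintro ⟨w, g⟩
  simp only [← π1_eq_one, map_mul, map_inv, mul_inv_eq_one, d1_π]
  constructor
  · rintro ⟨es, h4, h5⟩
    rw [h4, h5]
  · intro h
    obtain ⟨es, h4⟩ := exists_pp_gens w
    exact ⟨es, h4.symm, by rw [h4, h]⟩

theorem def_code2 (hgr : DefFun L (GD n D) (fun p : GD n D × ℕ => (d1 n D).π p.1 = xb 0 ^ p.2)) :
    DefFun L (GD n D) (fun c : FG n × GD n D => p2 n D (pG n D c.1) = p2 n D c.2) := by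
  have h1 := def_code1 hgr
  have hZ := step (L := L) (d1 n D) d1_surj (pG n D) pG_surj def_N1
    (def_N2.congr_iff fun g => (d1_ker g).symm) h1
    ((DefFun.derived (T := FG n) 2).congr_iff fun w => by rw [d1_ker, d2_π, π2_eq_one])
    (X 0) (by rw [d1_π]; exact Q1_not_fin (π1_X_ne_one 0))
    (gens n) (fun g hg => by rw [d1_π]; exact gens_not_fin g hg) 0 (by rw [d1_comp]; exact propS1)
    (comms n) (fun a ha => by rw [d1_π]; exact comms_ker a ha)
    (fun u hu => gen1 u (by rw [← d1_π]; exact hu))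
  refine DefFun.congr_iff (P := fun c : FG n × GD n D => (d1 n D).π (pG n D c.1) = (d1 n D).π c.2 ∧
    ((d1 n D).π (pG n D ⁅c.1, X 0⁆) = 1 ∧ (d1 n D).π ⁅c.2, xx 0⁆ = 1 ∧
      (d1 n D).D (pG n D ⁅c.1, X 0⁆) = (d1 n D).D ⁅c.2, xx 0⁆)) ?_ ?_
  · refine DefFun.and h1 (DefFun.comp₂ (fun (w : FG n) (g : GD n D) => (d1 n D).π (pG n D w) = 1 ∧
      (d1 n D).π g = 1 ∧ (d1 n D).D (pG n D w) = (d1 n D).D g) hZ ?_ ?_) <;> fun_prop
  rintro ⟨w, g⟩
  simp only [map_commutatorElement (pG n D)]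
  constructor
  · rintro ⟨h2, -, -, h3⟩
    exact (d12_eq_iff _ _).mpr ⟨h2, (d1 n D).pin (y := xx 0) (by rw [d1_xx]; exact xb_not_fin 0) h2 h3⟩
  · intro h
    refine ⟨((d12_eq_iff _ _).mp h).1, d1_comm _ _, d1_comm _ _, ((d12_eq_iff _ _).mp ?_).2⟩
    rw [map_commutatorElement, map_commutatorElement, h]
    rfl

theorem code_step {k : ℕ} (h : k + 2 + 1 ≤ D + 2)
    (h1 : DefFun L (GD n D) (fun c : FG n × GD n D =>
      pk n D (k + 2) (Nat.le_of_succ_le h) (pG n D c.1) = pk n D (k + 2) (Nat.le_of_succ_le h) c.2)) :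
    DefFun L (GD n D) (fun c : FG n × GD n D =>
      pk n D (k + 2 + 1) h (pG n D c.1) = pk n D (k + 2 + 1) h c.2) := by
  rw [← dd_π h] at h1
  have hZ := stepG (L := L) (dd n D (k + 2) h) (dd_surj h) (pG n D) pG_surj
    (by rw [dd_π]; exact def_pk _)
    ((def_pk h).congr_iff fun g => (dd_ker h g).symm) h1
    ((DefFun.derived (T := FG n) (k + 2 + 1)).congr_iff fun w => by rw [dd_ker, pk_pG, πk_eq_one])
    (zk n (k + 1)) (by rw [dd_pG]; exact πk_not_fin _ (zk_ne _))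
    (by
      intro _ _ hact hns
      rw [dd_comp] at hact ⊢
      exact def_rhoK ((dd n D (k + 2) h).im (dd_surj h)).subtype Subtype.val_injective hact hns)
    (asK n (k + 1)) (fun a ha => by rw [dd_pG]; exact asK_ker _ a ha)
    (fun u hu => genK (k + 1) u (by rw [← dd_pG h]; exact hu))
  have heq : ∀ g g' : GD n D, pk n D (k + 2 + 1) h g = pk n D (k + 2 + 1) h g' ↔
      (dd n D (k + 2) h).π g = (dd n D (k + 2) h).π g' ∧
        (dd n D (k + 2) h).D g = (dd n D (k + 2) h).D g' := fun g g' => by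
    rw [Der.eq_iff, dd_ker, map_mul, map_inv, mul_inv_eq_one]
  have hone : ∀ g : GD n D,
      (dd n D (k + 2) h).π (itc (fun j => pG n D (zk n j)) (k + 2) g) = 1 := by
    intro g
    obtain ⟨w, rfl⟩ := pG_surj g
    rw [← map_itc, dd_pG, πk_itc]
  refine DefFun.congr_iff (P := fun c : FG n × GD n D =>
    (dd n D (k + 2) h).π (pG n D c.1) = (dd n D (k + 2) h).π c.2 ∧
    ((dd n D (k + 2) h).π (pG n D (itc (zk n) (k + 2) c.1)) = 1 ∧
      (dd n D (k + 2) h).π (itc (fun j => pG n D (zk n j)) (k + 2) c.2) = 1 ∧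
      (dd n D (k + 2) h).D (pG n D (itc (zk n) (k + 2) c.1)) =
        (dd n D (k + 2) h).D (itc (fun j => pG n D (zk n j)) (k + 2) c.2))) ?_ ?_
  · exact DefFun.and h1 (DefFun.comp₂ (fun (w : FG n) (g : GD n D) =>
      (dd n D (k + 2) h).π (pG n D w) = 1 ∧ (dd n D (k + 2) h).π g = 1 ∧
        (dd n D (k + 2) h).D (pG n D w) = (dd n D (k + 2) h).D g) hZ
      ((def_itc _ _).comp DefFun.fst') ((def_itc _ _).comp DefFun.snd'))
  rintro ⟨w, g⟩
  simp only [map_itc (pG n D)]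
  constructor
  · rintro ⟨h2, -, -, h3⟩
    refine (heq _ _).mpr ⟨h2, pin_itc _ _ _ (fun j hj => ?_) h2 h3⟩
    rw [dd_pG]
    exact πk_not_fin _ fun h4 => zk_ne j (πk_mono hj h4)
  · intro h2
    refine ⟨((heq _ _).mp h2).1, hone _, hone _, ((heq _ _).mp ?_).2⟩
    rw [map_itc, map_itc, h2]

theorem def_codek (hgr : DefFun L (GD n D) (fun p : GD n D × ℕ => (d1 n D).π p.1 = xb 0 ^ p.2))
    (k : ℕ) (h : k + 2 ≤ D + 2) : DefFun L (GD n D) (fun c : FG n × GD n D =>
      pk n D (k + 2) h (pG n D c.1) = pk n D (k + 2) h c.2) := by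
  induction k with
  | zero => exact def_code2 hgr
  | succ k ih => exact code_step h (ih _)

theorem def_pG (hgr : DefFun L (GD n D) (fun p : GD n D × ℕ => (d1 n D).π p.1 = xb 0 ^ p.2)) :
    DefFun L (GD n D) (pG n D : FG n → GD n D) :=
  DefFun.of_graph (R := fun w g => pk n D (D + 2) le_rfl (pG n D w) = pk n D (D + 2) le_rfl g)
    (def_codek hgr D le_rfl) fun w g => by rw [pk_top, pk_top]

end Pool.Agent.Lib.MP_9cc2ee_lc.All
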