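import Pool.Agent.Lib.MP_9cc2ee_lc.All.Tools

/-!
Bounded coverings by point stabilisers and cyclic modules over finite fields.
-/

set_option autoImplicit false

namespace Pool.Agent.Lib.MP_9cc2ee_lc.All

open scoped commutatorElement

variable {F Q : Type} [Group F] [Group Q]

/-- Covering by a boundedly generated subgroup of a point stabiliser. -/
def Cl (π : F →* Q) (R R' : Subgroup F) (q q' m : ℕ) : Prop :=
  ∀ xs : List F, xs.length = q → (∀ x ∈ xs, x ∈ R) → ∀ Y : Finset F, (∀ y ∈ Y, π y ≠ 1) →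
    ∃ hs ts : List F, hs.length = q' ∧ ts.length = m ∧ (∀ h ∈ hs, h ∈ R) ∧ (∀ t ∈ ts, t ∈ R') ∧
      ∃ B : Subgroup F, cl π (xs ++ hs ++ ts) ≤ B ∧
        (∀ b ∈ B, ∃ t ∈ cl π ts, ∃ h ∈ cl π hs, b = t * h) ∧
        ∃ (Ω : Type) (_ : Finite Ω) (α : B →* Equiv.Perm Ω) (ω : Ω),
          (∀ b : B, π b = 1 → α b = 1) ∧ (∀ b : B, b.1 ∈ hs → α b ω = ω) ∧
          ∀ b : B, b.1 ∈ Y → α b ω ≠ ω

/-- A cyclic module over a finite field with boundedly many relations. -/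
def Md (π : F →* Q) (R R' : Subgroup F) (q q' m : ℕ) : Prop :=
  ∀ xs : List F, xs.length = q → (∀ x ∈ xs, x ∈ R) → ∀ W : Finset (ZR Q),
    (∀ r ∈ W, r.coeff 1 ≠ 0) → ∀ C : ℕ,
    ∃ (ks : List (F × ℕ)) (ts : List F), ks.length = q' ∧ ts.length = m ∧ (∀ k ∈ ks, k.1 ∈ R) ∧
      (∀ t ∈ ts, t ∈ R') ∧ ∃ B : Subgroup F, B = cl π (xs ++ ks.map Prod.fst ++ ts) ∧
      (∀ J J2 : AddSubgroup (ZR Q), J ≤ J2 → (∀ b ∈ B, ∀ r ∈ J, o (π b) * r ∈ J) →
        (∀ k ∈ ks, o (π k.1) - (k.2 : ZR Q) ∈ J) → (∀ t ∈ cl π ts, o (π t) ∈ J2) →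
        ∀ b ∈ B, o (π b) ∈ J2) ∧
      ∃ (l : ℕ) (_ : Fact l.Prime) (P : Type) (_ : AddCommGroup P) (_ : Module (ZMod l) P)
        (_ : Finite P) (σ : B →* Module.End (ZMod l) P) (ev : ZR Q →+ P) (e : ℕ),
        C < l ∧ ¬ l ∣ e ∧ (∀ b, σ b ^ e = 1) ∧ (∀ (b : B) r, ev (o (π b) * r) = σ b (ev r)) ∧
        (∀ k ∈ ks, ev (o (π k.1)) = k.2 • ev 1) ∧
        (∀ r, ev r ∈ AddSubgroup.closure (Set.range fun b : B => σ b (ev 1))) ∧
        (∀ r ∈ W, ev r ≠ 0) ∧ ∀ b : B, π b = 1 → σ b = 1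

theorem cl_mono {π : F →* Q} {xs ys : List F} (h : ∀ x ∈ xs, x ∈ ys) : cl π xs ≤ cl π ys :=
  cl_le (fun x hx => mem_cl (h x hx)) fun _ hx => ker_cl hx

theorem cl_to_md {π : F →* Q} (hπ : Function.Surjective π) {R R' : Subgroup F} {q q' m : ℕ}
    (h : Cl π R R' q q' m) : Md π R R' q q' m := by
  classical
  intro xs hxs hxR W hW C
  choose sec hsec using hπ
  obtain ⟨hs, ts, h1, h2, h3, h4, B, hB, hdec, Ω, _, α, ω, hα1, hα2, hα3⟩ :=
    h xs hxs hxR (((W.biUnion fun r => r.coeff.support).erase 1).image sec) (by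
      intro y hy
      obtain ⟨g, hg, rfl⟩ := Finset.mem_image.mp hy
      rw [hsec]
      exact (Finset.mem_erase.mp hg).1)
  have hkB : ∀ x, π x = 1 → x ∈ B := fun x hx => hB (ker_cl hx)
  have hHB : cl π hs ≤ B := le_trans (cl_mono fun x hx => by simp [hx]) hB
  obtain ⟨l, hl, hp⟩ := Nat.exists_infinite_primes
    (C + Nat.card (Equiv.Perm Ω) + (W.sup fun r => (r.coeff 1).natAbs) + 1)
  have : Fact l.Prime := ⟨hp⟩
  let ρ : Equiv.Perm Ω →* Module.End (ZMod l) (Ω →₀ ZMod l) :=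
    { toFun := fun a => Finsupp.lmapDomain _ _ a
      map_one' := by ext; simp
      map_mul' := fun a b => by ext; simp }
  have hρ : ∀ a x, ρ a (Finsupp.single x 1) = Finsupp.single (a x) 1 := fun a x => by
    simp [ρ]
  let f : Q → Ω →₀ ZMod l := fun g =>
    if h : sec g ∈ B then Finsupp.single (α ⟨sec g, h⟩ ω) 1 else 0
  have hf : ∀ b : B, f (π b) = Finsupp.single (α b ω) 1 := by
    intro b
    have e1 : π (b.1⁻¹ * sec (π b)) = 1 := by simp [hsec]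
    have e2 : sec (π b) ∈ B := by simpa using B.mul_mem b.2 (hkB _ e1)
    have e3 : (⟨sec (π b), e2⟩ : B) = b * ⟨_, hkB _ e1⟩ := Subtype.ext (by simp)
    simp only [f, e2, dite_true]
    rw [e3, map_mul, hα1 ⟨_, hkB _ e1⟩ e1, mul_one]
  have hf1 : f 1 = Finsupp.single ω 1 := by simpa using hf 1
  have hev1 : liftZ f 1 = Finsupp.single ω 1 := by rw [← o_one, liftZ_o, hf1]
  refine ⟨hs.map fun h => (h, 1), ts, by simp [h1], h2, ?_, h4, B, ?_, ?_, l, this, Ω →₀ ZMod l,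
    inferInstance, inferInstance, DFunLike.finite _, ρ.comp α, liftZ f,
    Nat.card (Equiv.Perm Ω), by omega, ?_, ?_, ?_, ?_, ?_, ?_, ?_⟩
  · intro k hk
    obtain ⟨x, hx, rfl⟩ := List.mem_map.mp hk
    exact h3 x hx
  · have e : (hs.map fun h => (h, 1)).map Prod.fst = hs := by simp [Function.comp_def]
    rw [e]
    refine le_antisymm (fun b hb => ?_) hB
    obtain ⟨t, ht, x, hx, rfl⟩ := hdec b hb
    exact Subgroup.mul_mem _ (cl_mono (fun x hx => by simp [hx]) ht)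
      (cl_mono (fun x hx => by simp [hx]) hx)
  · intro J J2 hJ hJ1 hJ2 hJ3 b hb
    obtain ⟨t, ht, x, hx, rfl⟩ := hdec b hb
    have key : o (π x) - 1 ∈ J := by
      clear hb
      induction hx using Subgroup.closure_induction with
      | mem y hy =>
        rcases hy with hy | hy
        · simpa using hJ2 (y, 1) (List.mem_map.mpr ⟨y, hy, rfl⟩)
        · simp [hy]
      | one => simp
      | mul y z hy _ ihy ihz =>
        have e : o (π (y * z)) - 1 = o (π y) * (o (π z) - 1) + (o (π y) - 1) := by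
          rw [map_mul, o_mul]; noncomm_ring
        rw [e]
        exact J.add_mem (hJ1 y (hHB hy) _ ihz) ihy
      | inv y hy ihy =>
        have e : o (π y⁻¹) - 1 = -(o (π y⁻¹) * (o (π y) - 1)) := by
          rw [mul_sub, ← o_mul, ← map_mul, inv_mul_cancel, map_one, o_one]; noncomm_ring
        rw [e]
        exact J.neg_mem (hJ1 _ (B.inv_mem (hHB hy)) _ ihy)
    have e : o (π (t * x)) = o (π t) * (o (π x) - 1) + o (π t) := by
      rw [map_mul, o_mul]; noncomm_ring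
    rw [e]
    exact J2.add_mem (hJ (hJ1 t (hB (cl_mono (fun x hx => by simp [hx]) ht)) _ key)) (hJ3 t ht)
  · exact Nat.not_dvd_of_pos_of_lt Nat.card_pos (by omega)
  · intro b
    rw [MonoidHom.comp_apply, ← map_pow, pow_card_eq_one', map_one]
  · intro b r
    refine liftZ_mul f (π b) ((ρ.comp α) b).toAddMonoidHom (fun g => ?_) r
    by_cases hg : sec g ∈ B
    · have e1 := hf (b * ⟨_, hg⟩)
      have e2 := hf ⟨_, hg⟩
      simp only [Subgroup.coe_mul, map_mul, hsec] at e1 e2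
      rw [e1, e2]
      exact (hρ (α b) _).symm
    · have e1 : sec (π b * g) ∉ B := by
        intro h5
        apply hg
        have e2 : π ((sec (π b * g))⁻¹ * b * sec g) = 1 := by simp [hsec, mul_assoc]
        have := B.mul_mem (B.inv_mem b.2) (B.mul_mem h5 (hkB _ e2))
        simpa [mul_assoc] using this
      simp [f, hg, e1]
  · intro k hk
    obtain ⟨x, hx, rfl⟩ := List.mem_map.mp hk
    rw [liftZ_o, hf ⟨x, hHB (mem_cl hx)⟩, hα2 _ hx, hev1, one_smul]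
  · intro r
    refine liftZ_mem f _ (fun g => ?_) r
    by_cases hg : sec g ∈ B
    · refine AddSubgroup.subset_closure ⟨⟨_, hg⟩, ?_⟩
      simp only [f, hg, dite_true, hev1]
      exact hρ _ _
    · simp [f, hg]
  · intro r hr h0
    have e1 := liftZ_key f (Finsupp.applyAddHom ω) r (by
      intro g hg hg1
      by_cases h5 : sec g ∈ B
      · simp only [f, h5, dite_true, Finsupp.applyAddHom_apply]
        exact Finsupp.single_eq_of_ne (hα3 ⟨_, h5⟩ (Finset.mem_image.mpr ⟨g,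
          Finset.mem_erase.mpr ⟨hg1, Finset.mem_biUnion.mpr ⟨r, hr, hg⟩⟩, rfl⟩)).symm
      · simp [f, h5])
    rw [h0, hf1] at e1
    simp only [map_zero, Finsupp.applyAddHom_apply, Finsupp.single_eq_same, zsmul_eq_mul,
      mul_one] at e1
    have e2 := (ZMod.intCast_zmod_eq_zero_iff_dvd _ _).mp e1.symm
    have e3 : (r.coeff 1).natAbs ≤ W.sup fun r => (r.coeff 1).natAbs :=
      Finset.le_sup (f := fun r : ZR Q => (r.coeff 1).natAbs) hr
    exact hW r hr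
      (Int.eq_zero_of_dvd_of_natAbs_lt_natAbs e2 (by rw [Int.natAbs_natCast]; omega))
  · intro b hb
    rw [MonoidHom.comp_apply, hα1 b hb, map_one]

theorem md_base {Qb κ : Type} [Group Qb] (d : Der F Qb κ) (π : F →* Q)
    (hker : ∀ w, π w = 1 ↔ d.π w = 1 ∧ d.D w = 0) (R' : Subgroup F) (q : ℕ) :
    Md π d.π.ker R' q (q + q) 0 := by
  classical
  intro xs hxs hxR W hW C
  obtain ⟨val, hval⟩ : ∃ val : Q → κ → ZR Qb, ∀ b, d.π b = 1 → val (π b) = d.D b := by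
    refine ⟨fun g => if h : ∃ b, d.π b = 1 ∧ π b = g then d.D h.choose else 0, fun b hb => ?_⟩
    have h : ∃ c, d.π c = 1 ∧ π c = π b := ⟨b, hb, rfl⟩
    simp only [h, dite_true]
    exact (d.eq_iff.mpr ((hker _).mp (by rw [map_mul, map_inv, h.choose_spec.2, mul_inv_cancel]))).2
  obtain ⟨ψ, hψ⟩ := exists_psi (((W.biUnion fun r => r.coeff.support).image val).erase 0)
    fun t ht => (Finset.mem_erase.mp ht).1
  let θ : (κ → ZR Qb) → Q1 0 := fun t => Multiplicative.ofAdd fun _ => ψ t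
  have hθ : ∀ s t, θ (s + t) = θ s * θ t := fun s t => by
    simp only [θ, map_add]
    rfl
  have hθ0 : θ 0 = 1 := by
    simp only [θ, map_zero]
    rfl
  let f : Q → ZR (Q1 0) := fun g => if ∃ b, d.π b = 1 ∧ π b = g then o (θ (val g)) else 0
  have hf : ∀ b, d.π b = 1 → f (π b) = o (θ (d.D b)) := fun b hb => by
    simp only [f]
    rw [if_pos ⟨b, hb, rfl⟩, hval b hb]
  have hf1 : f 1 = 1 := by simpa [d.D_one, hθ0] using hf 1 (map_one _)
  have hres : ∀ r ∈ W, liftZ f r ≠ 0 := by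
    intro r hr h0
    obtain ⟨γ, hγ⟩ : ∃ γ : ZR (Q1 0) →+ ℤ, ∀ t, γ t = t.coeff 1 :=
      ⟨AddMonoidHom.mk' (fun t : ZR (Q1 0) => t.coeff 1) (by simp), fun _ => rfl⟩
    have e1 := liftZ_key f γ r (by
      intro g hg hg1
      by_cases h5 : ∃ b, d.π b = 1 ∧ π b = g
      · obtain ⟨b, hb, rfl⟩ := h5
        have e2 : ψ (d.D b) ≠ 0 := hψ _ (Finset.mem_erase.mpr
          ⟨fun h => hg1 ((hker b).mpr ⟨hb, h⟩), Finset.mem_image.mpr
            ⟨π b, Finset.mem_biUnion.mpr ⟨r, hr, hg⟩, hval b hb⟩⟩)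
        have e3 : θ (d.D b) ≠ 1 := fun h => e2 (congrFun (congrArg Multiplicative.toAdd h) 0)
        rw [hf b hb, hγ]
        simp [o, Finsupp.single_eq_of_ne e3.symm]
      · simp [f, h5])
    rw [h0, hf1, ← o_one, hγ, hγ] at e1
    simp [o] at e1
    exact hW r hr e1.symm
  obtain ⟨l, hp, hl, χ, hχ⟩ := exists_char _ (Finset.prod_ne_zero_iff.mpr hres) C
  have : Fact l.Prime := ⟨hp⟩
  set E := MonoidAlgebra.lift ℤ (ZMod l) (Q1 0) χ with hE
  have hEo : ∀ g, E (o g) = χ g := fun g => by simp [hE, o]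
  rw [map_prod] at hχ
  have hχ2 := Finset.prod_ne_zero_iff.mp hχ
  let ks : List (F × ℕ) := (xs ++ xs.map fun x => x⁻¹).map fun x => (x, (χ (θ (d.D x))).val)
  have hks : ∀ k ∈ ks, d.π k.1 = 1 := by
    intro k hk
    obtain ⟨x, hx, rfl⟩ := List.mem_map.mp hk
    rcases List.mem_append.mp hx with hx | hx
    · exact hxR x hx
    · obtain ⟨y, hy, rfl⟩ := List.mem_map.mp hx
      exact d.π.ker.inv_mem (hxR y hy)
  have hBk : cl π (xs ++ ks.map Prod.fst ++ []) ≤ d.π.ker := by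
    refine cl_le (fun x hx => ?_) fun x hx => ((hker x).mp hx).1
    rw [List.append_nil] at hx
    rcases List.mem_append.mp hx with hx | hx
    · exact hxR x hx
    · obtain ⟨k, hk, rfl⟩ := List.mem_map.mp hx
      exact hks k hk
  let θB : cl π (xs ++ ks.map Prod.fst ++ []) →* Q1 0 := MonoidHom.mk' (fun b => θ (d.D b))
    fun a b => by rw [Subgroup.coe_mul, d.D_mul_ker (hBk a.2), hθ]
  obtain ⟨ev, hev⟩ : ∃ ev : ZR Q →+ ZMod l, ∀ r, ev r = E (liftZ f r) :=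
    ⟨E.toRingHom.toAddMonoidHom.comp (liftZ f), fun _ => rfl⟩
  have hev1 : ev 1 = 1 := by rw [hev, ← o_one, liftZ_o, hf1, map_one]
  refine ⟨ks, [], by simp [ks, hxs], rfl, hks, by simp, cl π (xs ++ ks.map Prod.fst ++ []), rfl,
    ?_, l, this, ZMod l,
    inferInstance, inferInstance, inferInstance,
    (Algebra.lmul (ZMod l) (ZMod l)).toRingHom.toMonoidHom.comp (χ.comp θB), ev, l - 1, hl,
    Nat.not_dvd_of_pos_of_lt (by have := hp.two_le; omega) (by have := hp.two_le; omega),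
    ?_, ?_, ?_, ?_, fun r hr => by rw [hev]; exact hχ2 r hr, ?_⟩
  · intro J J2 hJ hJ1 hJ2 hJ3 b hb
    have hx0 : ∀ x ∈ xs ++ xs.map fun x => x⁻¹, ∃ m : ℕ, o (π x) - m ∈ J := fun x hx =>
      ⟨(χ (θ (d.D x))).val, hJ2 (x, (χ (θ (d.D x))).val) (List.mem_map.mpr ⟨x, hx, rfl⟩)⟩
    have hx1 : ∀ x ∈ xs, ∃ m : ℕ, o (π x) - m ∈ J := fun x hx =>
      hx0 x (List.mem_append_left _ hx)
    have hx2 : ∀ x ∈ xs, ∃ m : ℕ, o (π x⁻¹) - m ∈ J := fun x hx =>
      hx0 x⁻¹ (List.mem_append_right _ (List.mem_map_of_mem hx))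
    have hgen : ∀ y, (y ∈ xs ++ ks.map Prod.fst ++ [] ∨ π y = 1) →
        (∃ m : ℕ, o (π y) - m ∈ J) ∧ ∃ m : ℕ, o (π y⁻¹) - m ∈ J := by
      rintro y (hy | hy)
      · simp only [ks, List.append_nil, List.map_map, List.mem_append, List.mem_map,
          Function.comp_apply, exists_eq_right] at hy
        rcases hy with hy | hy | ⟨x, hx, rfl⟩
        · exact ⟨hx1 y hy, hx2 y hy⟩
        · exact ⟨hx1 y hy, hx2 y hy⟩
        · exact ⟨hx2 x hx, by rw [inv_inv]; exact hx1 x hx⟩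
      · exact ⟨⟨1, by simp [hy]⟩, 1, by simp [hy]⟩
    have key : ∃ m : ℕ, o (π b) - m ∈ J := by
      induction hb using Subgroup.closure_induction'' with
      | mem y hy => exact (hgen y hy).1
      | inv_mem y hy => exact (hgen y hy).2
      | one => exact ⟨1, by simp⟩
      | mul y z hy _ ihy ihz =>
        obtain ⟨m, hm⟩ := ihy
        obtain ⟨k, hk⟩ := ihz
        refine ⟨k * m, ?_⟩
        have e : o (π (y * z)) - ((k * m : ℕ) : ZR Q) =
            o (π y) * (o (π z) - k) + k • (o (π y) - m) := by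
          rw [map_mul, o_mul, mul_sub, nsmul_eq_mul, mul_sub, (Nat.cast_commute k _).eq]
          push_cast
          abel
        rw [e]
        exact J.add_mem (hJ1 y hy _ hk) (J.nsmul_mem hm k)
    obtain ⟨m, hm⟩ := key
    have h1 := J2.add_mem (hJ hm) (J2.nsmul_mem (hJ3 1 (Subgroup.one_mem _)) m)
    simpa using h1
  · intro b
    rw [MonoidHom.comp_apply, ← map_pow, MonoidHom.comp_apply,
      ZMod.pow_card_sub_one_eq_one ((Group.isUnit (θB b)).map χ).ne_zero, map_one]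
  · intro b r
    rw [hev, liftZ_mul f (π b) (AddMonoidHom.mulLeft (o (θ (d.D b)))) (fun g => ?_) r]
    · rw [AddMonoidHom.coe_mulLeft, map_mul, hEo, hev]
      rfl
    · by_cases hg : ∃ c, d.π c = 1 ∧ π c = g
      · obtain ⟨c, hc, rfl⟩ := hg
        have hb : d.π b = 1 := hBk b.2
        rw [← map_mul, hf _ (by rw [map_mul, hb, hc, mul_one]), hf c hc, d.D_mul_ker hb, hθ, o_mul]
        rfl
      · have e1 : ¬ ∃ c, d.π c = 1 ∧ π c = π b * g := by
          rintro ⟨c, hc, h5⟩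
          have hb : d.π b = 1 := hBk b.2
          exact hg ⟨b.1⁻¹ * c, by simp [hb, hc], by simp [h5]⟩
        simp [f, hg, e1]
  · intro k hk
    have h1 := hks k hk
    obtain ⟨x, hx, rfl⟩ := List.mem_map.mp hk
    rw [hev1, hev, liftZ_o, hf _ h1, hEo, nsmul_eq_mul, mul_one, ZMod.natCast_zmod_val]
  · intro r
    rw [← ZMod.natCast_zmod_val (ev r), ← nsmul_one]
    refine AddSubgroup.nsmul_mem _ (AddSubgroup.subset_closure ?_) _
    exact ⟨1, by simp [hev1]⟩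
  · intro b hb
    have e1 : θB b = 1 := by
      show θ (d.D b) = 1
      rw [((hker b).mp hb).2, hθ0]
    rw [MonoidHom.comp_apply, MonoidHom.comp_apply, e1, map_one, map_one]

theorem exists_lift {Qb : Type} [Group Qb] (p : F →* Qb) {xs : List F} {H : Subgroup F}
    (h : ∀ x ∈ xs, ∃ y ∈ H, p y = p x) {b : F} (hb : b ∈ cl p xs) : ∃ y ∈ H, p y = p b :=
  cl_le (B := (H.map p).comap p) h (fun x hx => ⟨1, H.one_mem, by rw [map_one, hx]⟩) hb

theorem md_to_cl {Qb κ : Type} [Group Qb] (d : Der F Qb κ) (π : F →* Q)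
    (hker : ∀ w, π w = 1 ↔ d.π w = 1 ∧ d.D w = 0)
    (htf : ∀ w, d.π w ≠ 1 → ¬ IsOfFinOrder (d.π w))
    {a0 : F} (ha0 : d.π a0 = 1) (ha1 : d.D a0 ≠ 0) {R R' : Subgroup F}
    (hR1 : ∀ w, d.π w = 1 → w ∈ R') (hR2 : R' ≤ R) {q q' m : ℕ} (h : Md d.π R R' q q' m) :
    Cl π R R' q (q + q' + m + q') (m + 1) := by
  classical
  intro xs hxs hxR Y hY
  have hf : ∀ y : Y, ∃ (t : κ → ZR Qb) (i : κ) (s : Qb), (t i).coeff s ≠ 0 ∧
      ((d.π y = 1 ∧ t = d.D y) ∨ t = (o (d.π y) - 1) • d.D a0) := by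
    intro y
    by_cases h1 : d.π y = 1
    · obtain ⟨i, hi⟩ := Function.ne_iff.mp fun h2 => hY y y.2 ((hker y).mpr ⟨h1, h2⟩)
      obtain ⟨s, hs⟩ := exists_coeff hi
      exact ⟨_, i, s, hs, Or.inl ⟨h1, rfl⟩⟩
    · obtain ⟨i, hi⟩ := Function.ne_iff.mp ha1
      obtain ⟨s, hs⟩ := exists_coeff fun h2 => hi (eq_zero_of_sub_one_mul (htf y h1) h2)
      exact ⟨_, i, s, hs, Or.inr rfl⟩
  choose f i s hfs hf using hf
  obtain ⟨ks, ts, hk1, ht1, hkR, htR, B, hB, hP3, l, hl, P, _, _, _, σ, ev, e, hC, he, hσe, hev,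
      hevk, horb, hW, hσ1⟩ :=
    h xs hxs hxR (Finset.univ.image fun y : Y => f y (i y) * o (s y)⁻¹) (by
      intro r hr
      obtain ⟨y, -, rfl⟩ := Finset.mem_image.mp hr
      rw [coeff_mul_o_inv]
      exact hfs y) (Fintype.card Y + 1)
  obtain ⟨φ, hφf, hφσ, hφorb⟩ : ∃ φ : (κ → ZR Qb) →+ P, (∀ y, φ (f y) ≠ 0) ∧
      (∀ (b : B) t, φ (o (d.π b) • t) = σ b (φ t)) ∧
      ∀ t, φ t ∈ AddSubgroup.closure (Set.range fun b : B => σ b (ev 1)) := by
    obtain ⟨c, hc⟩ := avoid (fun y : Y => LinearMap.ker (Fintype.linearCombination (ZMod l)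
      fun y' : Y => ev (f y (i y') * o (s y')⁻¹))) (by
        intro y h1
        have h2 := LinearMap.congr_fun (LinearMap.ker_eq_top.mp h1) (Pi.single y 1)
        rw [Fintype.linearCombination_apply_single, one_smul] at h2
        exact hW _ (Finset.mem_image_of_mem _ (Finset.mem_univ y)) h2) (by omega)
    refine ⟨AddMonoidHom.mk' (fun t => ∑ y, c y • ev (t (i y) * o (s y)⁻¹)) (by
      intro a b
      simp [add_mul, Finset.sum_add_distrib]), fun y => ?_, fun b t => ?_, fun t => ?_⟩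
    · exact fun h1 => hc y (LinearMap.mem_ker.mpr (by rw [Fintype.linearCombination_apply]; exact h1))
    · show ∑ y, c y • ev ((o (d.π b) • t) (i y) * o (s y)⁻¹) = σ b (∑ y, _)
      simp only [Pi.smul_apply, smul_eq_mul, mul_assoc, hev, map_sum, map_smul]
    · exact AddSubgroup.sum_mem _ fun y _ => ZMod.smul_mem (horb _) _
  obtain ⟨U, hU⟩ : ∃ U : Submodule (ZMod l) P, ∀ v, v ∈ U ↔ ∃ a, d.π a = 1 ∧ φ (d.D a) = v := by
    refine ⟨AddSubgroup.toZModSubmodule l ((imA d ⊤).map φ), fun v => ⟨?_, ?_⟩⟩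
    · rintro ⟨_, ⟨a, -, ha, rfl⟩, rfl⟩
      exact ⟨a, ha, rfl⟩
    · rintro ⟨a, ha, rfl⟩
      exact ⟨_, ⟨a, trivial, ha, rfl⟩, rfl⟩
  have hUσ : ∀ b, ∀ v ∈ U, σ b v ∈ U := by
    intro b v hv
    obtain ⟨a, ha, rfl⟩ := (hU v).mp hv
    exact (hU _).mpr ⟨b * a * b.1⁻¹, by simp [ha], by rw [d.D_conj _ ha, hφσ]⟩
  obtain ⟨pr, hp1, hp2, hp3⟩ := maschke σ he hσe U hUσ
  obtain ⟨b0, hb0, hb1⟩ := (hU _).mp (hp1 (ev 1))
  obtain ⟨τ, p, hτ, hp, hmove⟩ : ∃ (τ : ZMod l) (p : P), τ ≠ 0 ∧ p ∈ U ∧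
      ∀ b : B, b.1 ∈ Y → τ • pr (φ (d.D b)) + σ b p ≠ p := by
    obtain ⟨v, hv⟩ := avoid (l := l) (V := ZMod l × U) (ι := Option {y : Y // y.1 ∈ B})
      (fun y => y.elim (LinearMap.ker (LinearMap.fst (ZMod l) (ZMod l) U)) fun y =>
        LinearMap.ker ((LinearMap.toSpanSingleton (ZMod l) P (pr (φ (d.D y.1.1)))).coprod
          ((σ ⟨y.1.1, y.2⟩ - 1) ∘ₗ U.subtype))) (by
        rintro (_ | y) h1
        · simpa using LinearMap.congr_fun (LinearMap.ker_eq_top.mp h1) (1, 0)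
        · apply hφf y.1
          rcases hf y.1 with ⟨h2, h3⟩ | h3
          · have h4 := LinearMap.congr_fun (LinearMap.ker_eq_top.mp h1) (1, 0)
            rw [h3, ← hp2 _ ((hU _).mpr ⟨_, h2, rfl⟩)]
            simpa using h4
          · have h4 := LinearMap.congr_fun (LinearMap.ker_eq_top.mp h1)
              (0, ⟨_, (hU _).mpr ⟨_, ha0, rfl⟩⟩)
            rw [h3, sub_smul, map_sub, one_smul, hφσ ⟨y.1.1, y.2⟩]
            simpa using h4) (by
        have := Fintype.card_subtype_le fun y : Y => y.1 ∈ B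
        rw [Fintype.card_option]
        omega)
    refine ⟨v.1, v.2, fun h1 => hv none (LinearMap.mem_ker.mpr h1), v.2.2, fun b hb h1 => ?_⟩
    refine hv (some ⟨⟨b, hb⟩, b.2⟩) (LinearMap.mem_ker.mpr ?_)
    show v.1 • pr (φ (d.D b)) + (σ b v.2 - v.2) = 0
    rw [← add_sub_assoc, h1, sub_self]
  obtain ⟨α, hα⟩ : ∃ α : B →* Equiv.Perm P, ∀ b u, α b u = τ • pr (φ (d.D b)) + σ b u := by
    let g : B →* Function.End P :=
      { toFun := fun b u => τ • pr (φ (d.D b)) + σ b u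
        map_one' := by
          funext u
          simp [d.D_one, Function.End.one_def]
        map_mul' := fun a b => by
          funext u
          show _ = τ • pr (φ (d.D a)) + σ a (τ • pr (φ (d.D b)) + σ b u)
          rw [Subgroup.coe_mul, d.D_mul, map_add, map_add, hφσ, hp3, map_mul, smul_add, map_add,
            map_smul, add_assoc]
          rfl }
    exact ⟨g.toHomPerm, fun _ _ => rfl⟩
  have hkB : ∀ x, d.π x = 1 → x ∈ B := fun x hx => hB ▸ ker_cl hx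
  set gs := xs ++ ks.map Prod.fst ++ ts with hgs
  have hgB : ∀ g ∈ gs, g ∈ B := fun x hx => hB ▸ mem_cl hx
  have hksB : ∀ k ∈ ks, k.1 ∈ B := fun k hk => hgB _
    (List.mem_append_left _ (List.mem_append_right _ (List.mem_map_of_mem hk)))
  obtain ⟨N, hNc, hNk, hNn, hNle⟩ : ∃ N : Subgroup F, (∀ b ∈ B, b * b0 * b⁻¹ ∈ N) ∧
      (∀ n ∈ N, d.π n = 1) ∧ (∀ b ∈ B, ∀ n ∈ N, b * n * b⁻¹ ∈ N) ∧
      ∀ S : Subgroup F, (∀ b ∈ B, b * b0 * b⁻¹ ∈ S) → N ≤ S := by
    have h1 : ∀ S : Subgroup F, (∀ b ∈ B, b * b0 * b⁻¹ ∈ S) →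
        Subgroup.closure {n | ∃ b ∈ B, n = b * b0 * b⁻¹} ≤ S := fun S hS =>
      (Subgroup.closure_le _).mpr (by rintro _ ⟨b, hb, rfl⟩; exact hS b hb)
    refine ⟨Subgroup.closure {n | ∃ b ∈ B, n = b * b0 * b⁻¹},
      fun b hb => Subgroup.subset_closure ⟨b, hb, rfl⟩,
      h1 d.π.ker fun b _ => by simp [MonoidHom.mem_ker, hb0], fun b hb n hn => ?_, h1⟩
    refine h1 (Subgroup.comap (MulAut.conj b).toMonoidHom
      (Subgroup.closure {n | ∃ b ∈ B, n = b * b0 * b⁻¹})) (fun c hc => ?_) hn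
    exact Subgroup.subset_closure ⟨b * c, B.mul_mem hb hc, by simp [mul_assoc]⟩
  have hNU : ∀ v ∈ U, ∃ n ∈ N, φ (d.D n) = v := by
    intro v hv
    have h1 : AddSubgroup.closure (Set.range fun b : B => σ b (ev 1)) ≤
        ((imA d N).map φ).comap pr.toAddMonoidHom := by
      rw [AddSubgroup.closure_le]
      rintro _ ⟨b, rfl⟩
      refine ⟨_, ⟨_, hNc b b.2, by simp [hb0], rfl⟩, ?_⟩
      rw [d.D_conj _ hb0, hφσ, hb1, ← hp3]
      rfl
    obtain ⟨a, -, rfl⟩ := (hU v).mp hv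
    obtain ⟨_, ⟨n, hn, -, rfl⟩, h2⟩ := h1 (hφorb (d.D a))
    exact ⟨n, hn, h2.trans (hp2 _ hv)⟩
  have hc : ∀ g : F, ∃ c ∈ N, ∀ b : B, b.1 = c * g → α b p = p := by
    intro g
    by_cases hg : g ∈ B
    · have h1 : τ⁻¹ • (p - α ⟨g, hg⟩ p) ∈ U := by
        rw [hα]
        exact U.smul_mem _ (U.sub_mem hp (U.add_mem (U.smul_mem _ (hp1 _)) (hUσ _ _ hp)))
      obtain ⟨n, hn, h2⟩ := hNU _ h1
      refine ⟨n, hn, fun b hb => ?_⟩
      have e1 : b = ⟨n, hkB n (hNk n hn)⟩ * ⟨g, hg⟩ := Subtype.ext hb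
      rw [e1, map_mul, Equiv.Perm.mul_apply, hα ⟨n, _⟩, hσ1 _ (hNk n hn), h2, hp2 _ h1, smul_smul,
        mul_inv_cancel₀ hτ, one_smul]
      simp
    · exact ⟨1, N.one_mem, fun b hb => absurd (by simpa [hb] using b.2) hg⟩
  choose c hcN hc using hc
  set hs := gs.map (fun g => c g * g) ++
    ks.map fun k => k.1 * b0 * k.1⁻¹ * (b0 ^ k.2)⁻¹ with hhs
  have hkk : ∀ k : F × ℕ, d.π (k.1 * b0 * k.1⁻¹ * (b0 ^ k.2)⁻¹) = 1 ∧
      d.D (k.1 * b0 * k.1⁻¹ * (b0 ^ k.2)⁻¹) = (o (d.π k.1) - (k.2 : ZR Qb)) • d.D b0 := by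
    intro k
    refine ⟨by simp [hb0], ?_⟩
    rw [d.D_mul_ker (by simp [hb0]), d.D_conj _ hb0, d.D_inv_ker (by simp [hb0]),
      d.D_pow_ker hb0, sub_smul, Nat.cast_smul_eq_nsmul, sub_eq_add_neg]
  have hcH : ∀ g ∈ gs, c g * g ∈ cl π hs := fun g hg =>
    mem_cl (List.mem_append_left _ (List.mem_map_of_mem hg))
  have hHB : cl π hs ≤ B := by
    refine cl_le (fun x hx => ?_) fun x hx => hkB x ((hker x).mp hx).1
    rcases List.mem_append.mp hx with hx | hx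
    · obtain ⟨g, hg, rfl⟩ := List.mem_map.mp hx
      exact B.mul_mem (hkB _ (hNk _ (hcN g))) (hgB g hg)
    · obtain ⟨k, -, rfl⟩ := List.mem_map.mp hx
      exact hkB _ (hkk k).1
  let β : ZR Qb →+ (κ → ZR Qb) := AddMonoidHom.mk' (fun r => r • d.D b0) fun _ _ => add_smul _ _ _
  have hN : N ≤ kerA d (imA d (cl π (b0 :: ts)) ⊔ imA d (cl π hs)) := by
    refine hNle _ fun b hb => ⟨by simp [hb0], ?_⟩
    rw [d.D_conj _ hb0]
    refine hP3 ((imA d (cl π hs)).comap β)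
      ((imA d (cl π (b0 :: ts)) ⊔ imA d (cl π hs)).comap β)
      (AddSubgroup.comap_mono le_sup_right) ?_ ?_ ?_ b hb
    · rintro b hb r ⟨a, ha, ha', h1⟩
      obtain ⟨y, hy, h2⟩ := exists_lift d.π (H := cl π hs)
        (fun g hg => ⟨_, hcH g hg, by rw [map_mul, hNk _ (hcN g), one_mul]⟩) (hB ▸ hb)
      refine ⟨y * a * y⁻¹, Subgroup.mul_mem _ (Subgroup.mul_mem _ hy ha) (Subgroup.inv_mem _ hy),
        by simp [ha'], ?_⟩
      rw [d.D_conj _ ha', h1, h2]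
      exact (mul_smul _ _ _).symm
    · intro k hk
      exact ⟨_, mem_cl (List.mem_append_right _ (List.mem_map_of_mem hk)), (hkk k).1, (hkk k).2⟩
    · intro t ht
      obtain ⟨y, hy, h2⟩ := exists_lift d.π (H := cl π (b0 :: ts))
        (fun g hg => ⟨g, mem_cl (List.mem_cons_of_mem _ hg), rfl⟩) ht
      refine AddSubgroup.mem_sup_left ⟨y * b0 * y⁻¹, Subgroup.mul_mem _ (Subgroup.mul_mem _ hy
        (mem_cl List.mem_cons_self)) (Subgroup.inv_mem _ hy), by simp [hb0], ?_⟩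
      rw [d.D_conj _ hb0, h2]
      rfl
  have hdec : ∀ n ∈ N, ∃ t ∈ cl π (b0 :: ts), ∃ h ∈ cl π hs, n = t * h := by
    intro n hn
    obtain ⟨h1, h2⟩ := hN hn
    obtain ⟨_, ⟨t, ht, ht', rfl⟩, _, ⟨y, hy, hy', rfl⟩, h3⟩ := AddSubgroup.mem_sup.mp h2
    have h4 : π (t * y * n⁻¹) = 1 := (hker _).mpr
      (d.eq_iff.mp ⟨by rw [map_mul, ht', hy', h1, mul_one], by rw [d.D_mul_ker ht', h3]⟩)
    have h5 : π (n⁻¹ * (t * y)) = 1 := by
      rw [map_mul, map_inv, mul_inv_eq_one] at h4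
      rw [map_mul, map_inv, h4, inv_mul_cancel]
    exact ⟨t, ht, y * (n⁻¹ * (t * y))⁻¹, Subgroup.mul_mem _ hy (Subgroup.inv_mem _ (ker_cl h5)),
      by group⟩
  let B' : Subgroup F :=
    { carrier := {b | ∃ n ∈ N, ∃ h ∈ cl π hs, b = n * h}
      mul_mem' := by
        rintro _ _ ⟨n, hn, h, hh, rfl⟩ ⟨n', hn', h', hh', rfl⟩
        exact ⟨n * (h * n' * h⁻¹), N.mul_mem hn (hNn h (hHB hh) n' hn'), h * h',
          Subgroup.mul_mem _ hh hh', by group⟩
      one_mem' := ⟨1, N.one_mem, 1, Subgroup.one_mem _, by simp⟩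
      inv_mem' := by
        rintro _ ⟨n, hn, h, hh, rfl⟩
        exact ⟨h⁻¹ * n⁻¹ * h⁻¹⁻¹, hNn _ (B.inv_mem (hHB hh)) _ (N.inv_mem hn), h⁻¹,
          Subgroup.inv_mem _ hh, by group⟩ }
  have hB' : B' ≤ B := by
    rintro _ ⟨n, hn, h, hh, rfl⟩
    exact B.mul_mem (hkB n (hNk n hn)) (hHB hh)
  have hgB' : ∀ g ∈ gs, g ∈ B' := fun g hg =>
    ⟨(c g)⁻¹, N.inv_mem (hcN g), _, hcH g hg, by group⟩
  refine ⟨hs, b0 :: ts, by simp [hhs, hgs, hxs, hk1, ht1, add_assoc], by simp [ht1], ?_, ?_, B',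
    ?_, ?_, P, inferInstance, α.comp (Subgroup.inclusion hB'), p, ?_, ?_, ?_⟩
  · intro x hx
    rcases List.mem_append.mp hx with hx | hx
    · obtain ⟨g, hg, rfl⟩ := List.mem_map.mp hx
      refine R.mul_mem (hR2 (hR1 _ (hNk _ (hcN g)))) ?_
      rcases List.mem_append.mp hg with hg | hg
      · rcases List.mem_append.mp hg with hg | hg
        · exact hxR g hg
        · obtain ⟨k, hk, rfl⟩ := List.mem_map.mp hg
          exact hkR k hk
      · exact hR2 (htR g hg)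
    · obtain ⟨k, -, rfl⟩ := List.mem_map.mp hx
      exact hR2 (hR1 _ (hkk k).1)
  · intro t ht
    rcases List.mem_cons.mp ht with rfl | ht
    · exact hR1 _ hb0
    · exact htR t ht
  · refine cl_le (fun x hx => ?_) fun x hx => ⟨1, N.one_mem, x, ker_cl hx, by simp⟩
    rcases List.mem_append.mp hx with hx | hx
    · rcases List.mem_append.mp hx with hx | hx
      · exact hgB' x (List.mem_append_left _ (List.mem_append_left _ hx))
      · exact ⟨1, N.one_mem, x, mem_cl hx, by simp⟩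
    · rcases List.mem_cons.mp hx with rfl | hx
      · exact ⟨x, by simpa using hNc 1 B.one_mem, 1, Subgroup.one_mem _, by simp⟩
      · exact hgB' x (List.mem_append_right _ hx)
  · rintro _ ⟨n, hn, h, hh, rfl⟩
    obtain ⟨t, ht, y, hy, rfl⟩ := hdec n hn
    exact ⟨t, ht, y * h, Subgroup.mul_mem _ hy hh, mul_assoc _ _ _⟩
  · intro b hb
    ext u
    have h1 := (hker _).mp hb
    rw [MonoidHom.comp_apply, hα, hσ1 _ h1.1]
    simp [h1.2]
  · intro b hb
    rcases List.mem_append.mp hb with hx | hx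
    · obtain ⟨g, hg, h1⟩ := List.mem_map.mp hx
      exact hc g _ h1.symm
    · obtain ⟨k, hk, h1⟩ := List.mem_map.mp hx
      have h2 := hkk k
      rw [h1] at h2
      rw [MonoidHom.comp_apply, hα, hσ1 _ h2.1]
      have h3 : φ (d.D b) = 0 := by
        rw [h2.2, sub_smul, map_sub, hφσ ⟨k.1, hksB k hk⟩, Nat.cast_smul_eq_nsmul, map_nsmul, hb1,
          ← hp3, ← hev, mul_one, hevk k hk, map_nsmul, sub_self]
      simp [h3]
  · intro b hb
    rw [MonoidHom.comp_apply, hα]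
    exact hmove _ hb

end Pool.Agent.Lib.MP_9cc2ee_lc.All
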