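import Pool.Agent.Lib.MP_9cc2ee_lc.All.Cover

/-!
The free solvable groups of every class.
-/

set_option autoImplicit false

namespace Pool.Agent.Lib.MP_9cc2ee_lc.All

open scoped commutatorElement

/-- The free solvable group of class `k` and rank `n + 2`. -/
abbrev QK (n k : ℕ) := FG n ⧸ derivedSeries (FG n) k

/-- Projection to the free solvable group of class `k`. -/
def πk (n k : ℕ) : FG n →* QK n k := QuotientGroup.mk' _

variable {n : ℕ}

theorem πk_surj (k : ℕ) : Function.Surjective (πk n k) := QuotientGroup.mk'_surjective _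

theorem πk_ker (k : ℕ) : (πk n k).ker = derivedSeries (FG n) k := QuotientGroup.ker_mk' _

theorem πk_eq_one {k : ℕ} {w : FG n} : πk n k w = 1 ↔ w ∈ derivedSeries (FG n) k :=
  QuotientGroup.eq_one_iff _

theorem foxk_ker (k : ℕ) (w : FG n) :
    (πk n k w = 1 ∧ (fox (πk n k)).D w = 0) ↔ πk n (k + 1) w = 1 := by
  rw [fox_ker _ (πk_surj k), πk_ker, πk_eq_one]
  rfl

theorem πk_mono {j k : ℕ} (h : j ≤ k) {w : FG n} (hw : πk n k w = 1) : πk n j w = 1 :=
  πk_eq_one.mpr (derivedSeries_antitone _ h (πk_eq_one.mp hw))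

theorem πk_not_fin (k : ℕ) {w : FG n} (hw : πk n k w ≠ 1) : ¬ IsOfFinOrder (πk n k w) := by
  induction k with
  | zero => exact absurd (πk_eq_one.mpr (by simp)) hw
  | succ k ih =>
    intro h
    obtain ⟨m, hm, h1⟩ := isOfFinOrder_iff_pow_eq_one.mp h
    rw [← map_pow] at h1
    have h2 := (foxk_ker k _).mpr h1
    have h3 : πk n k w = 1 := by
      by_contra h4
      exact ih h4 (isOfFinOrder_iff_pow_eq_one.mpr ⟨m, hm, by rw [← map_pow]; exact h2.1⟩)
    apply hw
    refine (foxk_ker k w).mp ⟨h3, ?_⟩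
    have h5 := h2.2
    rw [(fox (πk n k)).D_pow_ker (by rw [fox_π]; exact h3)] at h5
    funext i
    have h6 := congrFun h5 i
    ext b
    have h7 := congrArg (fun t : ZR (QK n k) => t.coeff b) h6
    simp only [Pi.smul_apply, Pi.zero_apply, coeff_nat_mul,
      MonoidAlgebra.coeff_zero, Finsupp.coe_zero, nsmul_eq_mul, mul_eq_zero, Nat.cast_eq_zero] at h7
    rcases h7 with h7 | h7
    · omega
    · simpa using h7

theorem derived_ne_bot (k : ℕ) : derivedSeries (FG n) k ≠ ⊥ := by
  intro h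
  have : Group.IsSolvable (FG n) := ⟨⟨k, h⟩⟩
  let f : FG n →* Equiv.Perm (Fin 5) := FreeGroup.lift fun i =>
    if i = 0 then finRotate 5 else Equiv.swap 0 (finRotate 5 0)
  have hf : Function.Surjective f := by
    rw [← MonoidHom.range_eq_top, eq_top_iff, ← Equiv.Perm.closure_cycle_adjacent_swap
      (isCycle_finRotate (n := 3)) (support_finRotate (n := 3)) 0, Subgroup.closure_le]
    rintro _ (rfl | rfl)
    · exact ⟨X 0, by simp [f]⟩
    · exact ⟨X 1, by simp [f]⟩
  exact Equiv.Perm.not_isSolvable_fin_5 (Group.isSolvable_of_surjective hf)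

theorem exists_z (n k : ℕ) : ∃ z : FG n, πk n k z = 1 ∧ πk n (k + 1) z ≠ 1 := by
  by_contra h
  push Not at h
  apply derived_ne_bot (n := n) k
  let H := derivedSeries (FG n) k
  have h1 : ∀ a : IsFreeGroup.Generators H, False := by
    intro a
    let g : H →* Multiplicative ℤ := IsFreeGroup.lift fun _ => Multiplicative.ofAdd 1
    have h2 : (IsFreeGroup.of a : H).1 ∈ (commutator H).map H.subtype := by
      rw [Subgroup.map_subtype_commutator]
      exact πk_eq_one.mp (h _ (πk_eq_one.mpr (IsFreeGroup.of a : H).2))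
    obtain ⟨b, hb, h3⟩ := h2
    have h4 : g b = 1 := Abelianization.commutator_subset_ker g hb
    rw [Subtype.ext h3] at h4
    simp [g] at h4
  have h2 : (MonoidHom.id H) = 1 := IsFreeGroup.ext_hom fun a => (h1 a).elim
  rw [eq_bot_iff]
  intro w hw
  exact congrArg Subtype.val (DFunLike.congr_fun h2 ⟨w, hw⟩)

/-- An element of a term of the derived series outside the next term. -/
noncomputable def zk (n k : ℕ) : FG n := (exists_z n k).choose

theorem zk_one (k : ℕ) : πk n k (zk n k) = 1 := (exists_z n k).choose_spec.1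

theorem zk_ne (k : ℕ) : πk n (k + 1) (zk n k) ≠ 1 := (exists_z n k).choose_spec.2

theorem zk_D (k : ℕ) : (fox (πk n k)).D (zk n k) ≠ 0 := fun h =>
  zk_ne k ((foxk_ker k _).mp ⟨zk_one k, h⟩)

theorem πk_comm {k : ℕ} {c c' : FG n} (hc : πk n k c = 1) (hc' : πk n k c' = 1) :
    πk n (k + 1) ⁅c, c'⁆ = 1 :=
  πk_eq_one.mpr (Subgroup.commutator_mem_commutator (πk_eq_one.mp hc) (πk_eq_one.mp hc'))

theorem exists_md (m j q : ℕ) : ∃ q', Md (πk n (j + m + 1)) (derivedSeries (FG n) j)
    (derivedSeries (FG n) (j + 1)) q q' m ∧ ∃ q'', Cl (πk n (j + m + 2)) (derivedSeries (FG n) j)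
    (derivedSeries (FG n) (j + 1)) q q'' (m + 1) := by
  have key : ∀ m q', Md (πk n (j + m + 1)) (derivedSeries (FG n) j)
      (derivedSeries (FG n) (j + 1)) q q' m → ∃ q'', Cl (πk n (j + m + 2))
      (derivedSeries (FG n) j) (derivedSeries (FG n) (j + 1)) q q'' (m + 1) := by
    intro m q' h
    refine ⟨_, md_to_cl (fox (πk n (j + m + 1))) (πk n (j + m + 2)) (q' := q')
      (fun w => by rw [fox_π, foxk_ker]) (fun w => by rw [fox_π]; exact πk_not_fin _)
      (by rw [fox_π]; exact zk_one _) (zk_D _) (fun w hw => ?_)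
      (derivedSeries_antitone _ (Nat.le_succ j)) (by rw [fox_π]; exact h)⟩
    rw [fox_π] at hw
    exact πk_eq_one.mp (πk_mono (by omega) hw)
  induction m with
  | zero =>
    have h := md_base (fox (πk n j)) (πk n (j + 1)) (fun w => by rw [fox_π, foxk_ker])
      (derivedSeries (FG n) (j + 1)) q
    rw [fox_π, πk_ker] at h
    exact ⟨_, h, key 0 _ h⟩
  | succ m ih =>
    obtain ⟨-, -, q', h⟩ := ih
    have h2 := cl_to_md (πk_surj _) h
    exact ⟨q', h2, key (m + 1) q' h2⟩

theorem exists_cl {K : ℕ} (m j q : ℕ) (h : j + m + 2 = K) : ∃ q', Cl (πk n K)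
    (derivedSeries (FG n) j) (derivedSeries (FG n) (j + 1)) q q' (m + 1) := by
  subst h
  obtain ⟨-, -, h⟩ := exists_md (n := n) m j q
  exact h

section Gen

variable {F Q κ : Type} [Group F] [Group Q]

theorem gen_aux (d : Der F Q κ) (z : F) (hz : ¬ IsOfFinOrder (d.π z))
    (hc : ∀ y y' : F, Commute (d.π (y * z * y⁻¹)) (d.π (y' * z * y'⁻¹)))
    (P : Submodule (ZR Q) (κ → ZR Q)) (gs : Set F) (hgs : Subgroup.closure gs = ⊤)
    (hP : ∀ x ∈ gs, d.D ⁅x * z * x⁻¹, z⁆ ∈ P) (u : F) (hu : d.π u = 1) :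
    ∃ s : ZR Q, (∀ t : κ → ZR Q, s • t = 0 → t = 0) ∧ s • d.D u ∈ P := by
  let S : Submonoid (ZR Q) := Submonoid.closure {r | ∃ y : F, r = o (d.π (y * z * y⁻¹)) - 1}
  have hS1 : ∀ s ∈ S, ∀ y, Commute s (o (d.π (y * z * y⁻¹))) := by
    intro s hs y
    induction hs using Submonoid.closure_induction with
    | mem x hx =>
      obtain ⟨y', rfl⟩ := hx
      exact (o_comm (hc y' y)).sub_left (Commute.one_left _)
    | one => exact Commute.one_left _
    | mul a b _ _ ha hb => exact ha.mul_left hb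
  have hS2 : ∀ s ∈ S, ∀ s' ∈ S, Commute s s' := by
    intro s hs s' hs'
    induction hs' using Submonoid.closure_induction with
    | mem x hx =>
      obtain ⟨y, rfl⟩ := hx
      exact (hS1 s hs y).sub_right (Commute.one_right _)
    | one => exact Commute.one_right _
    | mul a b _ _ ha hb => exact ha.mul_right hb
  have hS3 : ∀ s ∈ S, ∀ b : F, ∃ s' ∈ S, s' * o (d.π b) = o (d.π b) * s := by
    intro s hs b
    induction hs using Submonoid.closure_induction with
    | mem x hx =>
      obtain ⟨y, rfl⟩ := hx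
      refine ⟨_, Submonoid.subset_closure ⟨b * y, rfl⟩, ?_⟩
      rw [sub_mul, mul_sub, one_mul, mul_one, ← o_mul, ← o_mul, ← map_mul, ← map_mul]
      congr 3
      group
    | one => exact ⟨1, Submonoid.one_mem _, by simp⟩
    | mul a c _ _ ha hc =>
      obtain ⟨a', ha', h1⟩ := ha
      obtain ⟨c', hc', h2⟩ := hc
      exact ⟨a' * c', Submonoid.mul_mem _ ha' hc', by
        rw [mul_assoc, h2, ← mul_assoc, h1, mul_assoc]⟩
  have hS4 : ∀ s ∈ S, ∀ t : κ → ZR Q, s • t = 0 → t = 0 := by
    intro s hs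
    induction hs using Submonoid.closure_induction with
    | mem x hx =>
      obtain ⟨y, rfl⟩ := hx
      intro t h
      funext i
      refine eq_zero_of_sub_one_mul ?_ (congrFun h i)
      rw [map_mul, map_mul, map_inv]
      exact not_fin_conj _ hz
    | one => intro t h; simpa using h
    | mul a b _ _ ha hb =>
      intro t h
      rw [mul_smul] at h
      exact hb _ (ha _ h)
  let W : Subgroup F :=
    { carrier := {w | ∃ s ∈ S, ∃ r : ZR Q, s • d.D w - r • d.D z ∈ P ∧
        r * (o (d.π z) - 1) = s * (o (d.π w) - 1)}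
      mul_mem' := by
        rintro a b ⟨s1, hs1, r1, h1, h2⟩ ⟨s2, hs2, r2, h3, h4⟩
        obtain ⟨s', hs', h5⟩ := hS3 s2 hs2 a
        have h6 := (hS2 s1 hs1 s' hs').eq
        refine ⟨s1 * s', S.mul_mem hs1 hs', s' * r1 + s1 * o (d.π a) * r2, ?_, ?_⟩
        · have e : (s1 * s') • d.D (a * b) - (s' * r1 + s1 * o (d.π a) * r2) • d.D z =
              s' • (s1 • d.D a - r1 • d.D z) + (s1 * o (d.π a)) • (s2 • d.D b - r2 • d.D z) := by
            rw [d.D_mul, smul_add, add_smul, smul_sub, smul_sub, smul_smul, smul_smul, smul_smul,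
              smul_smul, smul_smul, mul_assoc s1 s', h5, ← h6, mul_assoc s1 _ s2]
            abel
          rw [e]
          exact P.add_mem (P.smul_mem _ h1) (P.smul_mem _ h3)
        · rw [add_mul, mul_assoc s', h2, mul_assoc _ r2, h4, ← mul_assoc s', ← h6, map_mul, o_mul,
            ← mul_assoc _ s2, mul_assoc s1 _ s2, ← h5]
          noncomm_ring
      one_mem' := ⟨1, S.one_mem, 0, by simp [d.D_one], by simp⟩
      inv_mem' := by
        rintro a ⟨s, hs, r, h1, h2⟩
        obtain ⟨s', hs', h5⟩ := hS3 s hs a⁻¹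
        refine ⟨s', hs', -(o (d.π a⁻¹) * r), ?_, ?_⟩
        · have e : s' • d.D a⁻¹ - (-(o (d.π a⁻¹) * r)) • d.D z =
              -(o (d.π a⁻¹) • (s • d.D a - r • d.D z)) := by
            rw [d.D_inv, smul_neg, smul_smul, ← map_inv, h5, smul_sub, smul_smul, smul_smul,
              neg_smul]
            abel
          rw [e]
          exact P.neg_mem (P.smul_mem _ h1)
        · rw [neg_mul, mul_assoc, h2, ← mul_assoc, ← h5, mul_assoc, mul_sub (o _), ← o_mul,
            ← map_mul, inv_mul_cancel, map_one, o_one]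
          noncomm_ring }
  have hW : Subgroup.closure gs ≤ W := by
    rw [Subgroup.closure_le]
    intro x hx
    have h1 := hc x 1
    rw [one_mul, inv_one, mul_one] at h1
    have h2 : d.π ⁅x * z * x⁻¹, z⁆ = 1 := by
      rw [map_commutatorElement, commutatorElement_eq_one_iff_commute]
      exact h1
    have h3 : o (d.π x) * o (d.π z) = o (d.π (x * z * x⁻¹)) * o (d.π x) := by
      rw [← o_mul, ← o_mul, ← map_mul, ← map_mul, inv_mul_cancel_right]
    have h4 : d.D (x * z * x⁻¹) = (1 - o (d.π (x * z * x⁻¹))) • d.D x + o (d.π x) • d.D z := by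
      rw [d.D_mul, d.D_mul, d.D_inv, smul_neg, smul_smul, ← o_mul, ← map_inv, ← map_mul, sub_smul,
        one_smul]
      abel
    refine ⟨(o (d.π z) - 1) * (o (d.π (x * z * x⁻¹)) - 1), S.mul_mem
      (Submonoid.subset_closure ⟨1, by simp⟩) (Submonoid.subset_closure ⟨x, rfl⟩),
      -((1 - o (d.π z)) * o (d.π x) + (o (d.π (x * z * x⁻¹)) - 1)), ?_, ?_⟩
    · have h5 := hP x hx
      rw [d.D_comm' h2, h4, smul_add, smul_smul, smul_smul] at h5
      have e : (o (d.π z) - 1) * (o (d.π (x * z * x⁻¹)) - 1) =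
          (1 - o (d.π z)) * (1 - o (d.π (x * z * x⁻¹))) := by noncomm_ring
      rw [e, neg_smul, sub_neg_eq_add, add_smul, ← add_assoc]
      exact h5
    · have h5 := (o_comm h1).eq
      generalize o (d.π (x * z * x⁻¹)) = a at h3 h5 ⊢
      generalize o (d.π x) = b at h3 ⊢
      generalize o (d.π z) = c at h3 h5 ⊢
      have e1 : -((1 - c) * b + (a - 1)) * (c - 1) =
          (c - 1) * (b * c) - (c - 1) * b - a * c + a + c - 1 := by noncomm_ring
      rw [e1, h3, h5]
      noncomm_ring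
  obtain ⟨s, hs, r, h1, h2⟩ := hW (hgs ▸ Subgroup.mem_top u)
  rw [hu, o_one, sub_self, mul_zero] at h2
  rw [eq_zero_of_mul_sub_one hz h2, zero_smul, sub_zero] at h1
  exact ⟨s, hS4 s hs, h1⟩

end Gen

/-- The finite list of elements that spans the relation module up to cancellable multipliers. -/
noncomputable def asK (n k : ℕ) : List (FG n) :=
  (Finset.univ : Finset (Fin (n + 2))).toList.map fun i => ⁅X i * zk n k * (X i)⁻¹, zk n k⁆

theorem asK_ker (k : ℕ) : ∀ a ∈ asK n k, πk n (k + 1) a = 1 := by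
  intro a ha
  obtain ⟨i, -, rfl⟩ := List.mem_map.mp ha
  exact πk_comm (by simp [zk_one]) (zk_one k)

theorem genK (k : ℕ) (u : FG n) (hu : πk n (k + 1) u = 1) :
    ∃ s : ZR (QK n (k + 1)), (∀ t : Fin (n + 2) → ZR (QK n (k + 1)), s • t = 0 → t = 0) ∧
      s • (fox (πk n (k + 1))).D u ∈ Submodule.span (ZR (QK n (k + 1)))
        ((fun a => (fox (πk n (k + 1))).D a) '' {a | a ∈ asK n k}) := by
  refine gen_aux (fox (πk n (k + 1))) (zk n k) (by rw [fox_π]; exact πk_not_fin _ (zk_ne k))
    (fun y y' => ?_) _ (Set.range FreeGroup.of) (FreeGroup.closure_range_of _) ?_ u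
    (by rw [fox_π]; exact hu)
  · rw [fox_π, ← commutatorElement_eq_one_iff_commute, ← map_commutatorElement]
    exact πk_comm (by simp [zk_one]) (by simp [zk_one])
  · rintro _ ⟨i, rfl⟩
    exact Submodule.subset_span ⟨_, List.mem_map.mpr ⟨i, by simp, rfl⟩, rfl⟩

end Pool.Agent.Lib.MP_9cc2ee_lc.All
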