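import Pool.Agent.Lib.MP_9cc2ee_lc.All.Levels

/-!
Definability of the action of coded group ring elements, by descent along the derived series.
-/

set_option autoImplicit false
set_option linter.unusedSectionVars false

namespace Pool.Agent.Lib.MP_9cc2ee_lc.All

open FirstOrder Set
open scoped commutatorElement

/-- The entries of a list lie in a subgroup with a bounded number of generators from `R`. -/
def Cls {F Q : Type} [Group F] [Group Q] (π : F →* Q) (R : Subgroup F) (q : ℕ) (r : List F) :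
    Prop :=
  ∃ xs : List F, xs.length = q ∧ (∀ x ∈ xs, x ∈ R) ∧ ∀ w ∈ r, w ∈ cl π xs

theorem mem_cl_iff {F Q : Type} [Group F] [Group Q] (π : F →* Q) (hs : List F) (w : F) :
    w ∈ cl π hs ↔ π w ∈ Subgroup.closure {y | y ∈ hs.map π} := mem_closure_iff π hs w

section Mod

variable {L : FirstOrder.Language.{0, 0}} {M : Type} [L.Structure M] [Nontrivial M]
variable {F Q κ : Type} [Group F] [Group Q] [Enc L M F] {π : F →* Q}
variable {N : Type} [AddCommGroup N] [Module (ZR Q) N] [Enc L M N] [DefAdd L M N]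
variable [Enc L M ℕ] [DefAdd L M ℕ] [DefMul L M ℕ] [NDec F] [NDef L M F] [DefMul L M F]

theorem def_cl (hker : DefFun L M (fun w : F => π w = 1)) {S : Type} [Enc L M S]
    {f : S → List F} {g : S → F} (hf : DefFun L M f) (hg : DefFun L M g) :
    DefFun L M (fun s => g s ∈ cl π (f s)) :=
  DefFun.closure (P := fun s y => y ∈ f s ∨ π y = 1)
    (DefFun.or (by fun_prop) (hker.comp (by fun_prop))) hg

theorem def_cls (hker : DefFun L M (fun w : F => π w = 1)) {R : Subgroup F}
    (hR : DefFun L M (fun w : F => w ∈ R)) (q : ℕ) : DefFun L M (Cls π R q) :=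
  DefFun.congr_iff (P := fun r : List F => ∃ xs : List F, xs.length = q ∧
    (All fun x => Imp (x ∈ xs) (x ∈ R)) ∧ All fun w => Imp (w ∈ r) (w ∈ cl π xs))
    (DefFun.ex (DefFun.and (by fun_prop) (DefFun.and
      (DefFun.all (DefFun.imp (by fun_prop) (hR.comp (by fun_prop))))
      (DefFun.all (DefFun.imp (by fun_prop) (def_cl hker (by fun_prop) (by fun_prop)))))))
    fun _ => Iff.rfl

theorem good_base (ι : N →ₗ[ZR Q] (κ → ZR Q)) (hι : Function.Injective ι)
    (hact : DefFun L M (fun p : F × N => o (π p.1) • p.2))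
    (hns : DefFun L M (fun p : ℕ × N => p.1 • p.2)) (hker : DefFun L M (fun w : F => π w = 1))
    (htf : ∀ w, π w ≠ 1 → ¬ IsOfFinOrder (π w)) {R : Subgroup F}
    (hR : DefFun L M (fun w : F => w ∈ R)) :
    DefFun L M (fun p : (List F × N) × N => Cls π R 1 p.1.1 ∧ rho π p.1.1 • p.1.2 = p.2) := by
  have hns' : ∀ {S : Type} [Enc L M S] {f : S → ℕ} {g : S → N}, DefFun L M f → DefFun L M g →
      DefFun L M (fun s => f s • g s) := by
    intro S _ f g hf hg
    exact DefFun.comp₂ (fun (k : ℕ) (t : N) => k • t) hns hf hg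
  refine DefFun.congr_iff (P := fun p : (List F × N) × N => ∃ g : F, g ∈ R ∧ ∃ f : ℕ,
    ∃ l : List (F × ℕ), l.map (fun c => c.1) = p.1.1 ∧
      (All fun c : F × ℕ => Imp (c ∈ l) (π (g ^ f * c.1 * (g ^ c.2)⁻¹) = 1)) ∧
      All fun m : ℕ => ∃ v : N, (l.map fun c => m ^ c.2).sum • p.1.2 + o (π g) • v =
        o (π (g ^ f)) • p.2 + m • v) ?_ ?_
  · refine DefFun.ex (DefFun.and (hR.comp ?_) (DefFun.ex (DefFun.ex (DefFun.and ?_
      (DefFun.and (DefFun.all (DefFun.imp ?_ (hker.comp ?_))) (DefFun.all (DefFun.ex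
        (DefFun.eq (DefFun.add (hns' ?_ ?_) (def_act hact ?_ ?_))
          (DefFun.add (def_act hact ?_ ?_) (hns' ?_ ?_)))))))))) <;> fun_prop
  rintro ⟨⟨r, a⟩, u⟩
  have hdiff : ∀ (g : F) (f : ℕ) (l : List (F × ℕ)),
      (∀ c ∈ l, π (g ^ f * c.1 * (g ^ c.2)⁻¹) = 1) → ∀ m : ℕ,
      o (π (g ^ f)) • rho π (l.map fun c => c.1) • a - (l.map fun c => m ^ c.2).sum • a ∈
        mults N (o (π g) - (m : ZR Q)) := by
    intro g f l hl m
    induction l with
    | nil => simp [rho]
    | cons c l ihl =>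
      have ihl' := ihl fun c' hc' => hl c' (List.mem_cons_of_mem _ hc')
      simp only [rho, List.map_cons, List.sum_cons, add_smul, smul_add] at ihl' ⊢
      rw [add_sub_add_comm]
      refine AddSubgroup.add_mem _ ?_ ihl'
      obtain ⟨t, ht⟩ := (Nat.cast_commute m (o (π g))).symm.sub_dvd_pow_sub_pow c.2
      have h1 := hl c List.mem_cons_self
      rw [map_mul, map_inv, mul_inv_eq_one] at h1
      refine mem_mults.mpr ⟨t • a, ?_⟩
      rw [smul_smul, ← ht, smul_smul, ← o_mul, ← map_mul, h1, map_pow, o_pow, sub_smul,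
        ← Nat.cast_pow, Nat.cast_smul_eq_nsmul]
  simp only [All, Imp]
  constructor
  · rintro ⟨g, hg, f, l, rfl, h1, h2⟩
    refine ⟨⟨[g], rfl, by simpa using hg, fun w hw => ?_⟩, ?_⟩
    · obtain ⟨c, hc, rfl⟩ := List.mem_map.mp hw
      have h3 : g ∈ cl π [g] := mem_cl (by simp)
      have h4 := Subgroup.mul_mem _ (Subgroup.mul_mem _ (Subgroup.inv_mem _ (Subgroup.pow_mem _ h3 f))
        (ker_cl (h1 c hc))) (Subgroup.pow_mem _ h3 c.2)
      simpa [mul_assoc] using h4
    · have h3 : ∀ m : ℕ, ∃ v : N, o (π (g ^ f)) • rho π (l.map fun c => c.1) • a -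
          o (π (g ^ f)) • u = (o (π g) - (m : ZR Q)) • v := by
        intro m
        obtain ⟨v, hv⟩ := h2 m
        obtain ⟨w, hw⟩ := mem_mults.mp (hdiff g f l h1 m)
        refine ⟨w - v, ?_⟩
        rw [smul_sub, hw, sub_smul, Nat.cast_smul_eq_nsmul, eq_sub_of_add_eq hv]
        abel
      have h4 : o (π (g ^ f)) • rho π (l.map fun c => c.1) • a - o (π (g ^ f)) • u = 0 := by
        by_cases h5 : π g = 1
        · obtain ⟨v, hv⟩ := h3 1
          rw [hv, h5]
          simp
        · refine N_ext ι hι fun i => eq_zero_of_forall_sub_nat (htf g h5) fun m => ?_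
          obtain ⟨v, hv⟩ := h3 m
          exact ⟨ι v i, by rw [hv, map_smul]; rfl⟩
      have h5 := congrArg (fun t => o (π (g ^ f))⁻¹ • t) (sub_eq_zero.mp h4)
      simpa only [smul_smul, ← mul_assoc, ← o_mul, inv_mul_cancel, o_one, one_smul, one_mul]
        using h5
  · rintro ⟨⟨xs, h1, h2, h3⟩, rfl⟩
    obtain ⟨g, rfl⟩ := List.length_eq_one_iff.mp h1
    have h4 : ∃ f : ℕ, ∀ f' ≥ f, ∀ w ∈ r, ∃ e : ℕ, π (g ^ f' * w * (g ^ e)⁻¹) = 1 := by
      clear hdiff
      induction r with
      | nil => exact ⟨0, by simp⟩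
      | cons w r ih =>
        obtain ⟨f, hf⟩ := ih fun w' hw' => h3 w' (List.mem_cons_of_mem _ hw')
        have h5 := (mem_cl_iff π [g] w).mp (h3 w List.mem_cons_self)
        simp only [List.map_cons, List.map_nil, List.mem_singleton, ofPred_eq_eq_singleton,
          Subgroup.mem_closure_singleton] at h5
        obtain ⟨k, hk⟩ := h5
        refine ⟨f + k.natAbs, fun f' hf' w' hw' => ?_⟩
        rcases List.mem_cons.mp hw' with rfl | hw'
        · refine ⟨(f' + k).toNat, ?_⟩
          rw [map_mul, map_inv, mul_inv_eq_one, map_mul, map_pow, map_pow, ← hk, ← zpow_natCast,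
            ← zpow_add, ← zpow_natCast]
          congr 1
          omega
        · exact hf f' (by omega) w' hw'
    obtain ⟨f, hf⟩ := h4
    choose! e he using hf f le_rfl
    have hl : ∀ c ∈ r.map (fun b => (b, e b)), π (g ^ f * c.1 * (g ^ c.2)⁻¹) = 1 := by
      intro c hc
      obtain ⟨b, hb, rfl⟩ := List.mem_map.mp hc
      exact he b hb
    have hr : (r.map (fun b => (b, e b))).map (fun c => c.1) = r := by simp [Function.comp_def]
    refine ⟨g, h2 g (by simp), f, r.map fun b => (b, e b), hr, hl, fun m => ?_⟩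
    obtain ⟨w, hw⟩ := mem_mults.mp (hdiff g f _ hl m)
    rw [hr, sub_smul, Nat.cast_smul_eq_nsmul, sub_eq_sub_iff_add_eq_add] at hw
    exact ⟨w, by rw [add_comm, hw]⟩

theorem good_step (ι : N →ₗ[ZR Q] (κ → ZR Q)) (hι : Function.Injective ι)
    (hact : DefFun L M (fun p : F × N => o (π p.1) • p.2))
    (hker : DefFun L M (fun w : F => π w = 1)) (hπ : Function.Surjective π) {R R' : Subgroup F}
    (hR : DefFun L M (fun w : F => w ∈ R)) {q q' m : ℕ} (hCl : Cl π R R' q q' m)
    (hG : DefFun L M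
      (fun p : (List F × N) × N => Cls π R' m p.1.1 ∧ rho π p.1.1 • p.1.2 = p.2)) :
    DefFun L M (fun p : (List F × N) × N => Cls π R q p.1.1 ∧ rho π p.1.1 • p.1.2 = p.2) := by
  have hI := def_IQ hact q'
  refine DefFun.congr_iff (P := fun p : (List F × N) × N => Cls π R q p.1.1 ∧
    All fun hs : List F => All fun l : List (F × F) => All fun v : N =>
    Imp (hs.length = q' ∧ l.map (fun c => c.1) = p.1.1 ∧
      (All fun c : F × F => Imp (c ∈ l) (c.1 * c.2⁻¹ ∈ cl π hs)) ∧
      (Cls π R' m (l.map fun c => c.2) ∧ rho π (l.map fun c => c.2) • p.1.2 = v))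
      (hs.length = q' ∧ p.2 - v ∈ IQ N (hs.map π))) ?_ ?_
  · refine DefFun.and ((def_cls hker hR q).comp (by fun_prop)) (DefFun.all (DefFun.all (DefFun.all
      (DefFun.imp (DefFun.and (by fun_prop) (DefFun.and (by fun_prop) (DefFun.and
        (DefFun.all (DefFun.imp (by fun_prop) (def_cl hker (by fun_prop) (by fun_prop)))) ?_)))
        ?_))))
    · exact DefFun.comp₂ (fun (c : List F × N) (v : N) => Cls π R' m c.1 ∧ rho π c.1 • c.2 = v) hG
        (g := fun s : ((((List F × N) × N) × List F) × List (F × F)) × N =>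
          (s.1.2.map fun c => c.2, s.1.1.1.1.2)) (h := fun s => s.2) (by fun_prop) (by fun_prop)
    · exact DefFun.comp₂ (fun (hs : List F) (t : N) => hs.length = q' ∧ t ∈ IQ N (hs.map π)) hI
        (by fun_prop) (DefFun.gsub (by fun_prop) (by fun_prop))
  rintro ⟨⟨r, a⟩, u⟩
  refine and_congr_right fun hr0 => ?_
  have hdiff : ∀ (hs : List F) (l : List (F × F)), (∀ c ∈ l, c.1 * c.2⁻¹ ∈ cl π hs) →
      rho π (l.map fun c => c.1) • a - rho π (l.map fun c => c.2) • a ∈ IQ N (hs.map π) := by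
    intro hs l hl
    induction l with
    | nil => simp [rho]
    | cons c l ihl =>
      have ihl' := ihl fun c' hc' => hl c' (List.mem_cons_of_mem _ hc')
      simp only [rho, List.map_cons, List.sum_cons, add_smul] at ihl' ⊢
      rw [add_sub_add_comm]
      refine AddSubgroup.add_mem _ ?_ ihl'
      have := smul_mem_IQ (N := N) ((mem_cl_iff π hs _).mp (hl c List.mem_cons_self))
        (o (π c.2) • a)
      rw [smul_smul, sub_mul, ← o_mul, ← map_mul, inv_mul_cancel_right, sub_smul] at this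
      simpa using this
  simp only [All, Imp]
  constructor
  · intro h
    classical
    rw [← sub_eq_zero]
    refine N_ext ι hι fun i => ?_
    set t : ZR Q := ι (rho π r • a - u) i with ht
    choose sec hsec using hπ
    obtain ⟨xs, hx1, hx2, hx3⟩ := hr0
    obtain ⟨hs, ts, h1, h2, -, h4, B, hB, hdec, Ω, _, α, ω, hα1, hα2, hα3⟩ :=
      hCl xs hx1 hx2 (t.coeff.support.offDiag.image fun p => sec (p.2 * p.1⁻¹)) (by
        intro y hy
        obtain ⟨p, hp, rfl⟩ := Finset.mem_image.mp hy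
        rw [hsec, Ne, mul_inv_eq_one]
        exact (Finset.mem_offDiag.mp hp).2.2.symm)
    have hHB : cl π hs ≤ B := le_trans (cl_mono fun x hx => by simp [hx]) hB
    have hfix : ∀ b : B, b.1 ∈ cl π hs → α b ω = ω := by
      intro b hb
      obtain ⟨c, hc, h5⟩ := cl_le
        (B := ((MulAction.stabilizer (Equiv.Perm Ω) ω).comap α).map B.subtype)
        (fun x hx => ⟨⟨x, hHB (mem_cl hx)⟩, hα2 _ hx, rfl⟩)
        (fun x hx => ⟨⟨x, hHB (ker_cl hx)⟩, by
          show α _ ω = ω
          rw [hα1 _ hx]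
          rfl, rfl⟩) hb
      rw [← Subtype.ext h5]
      exact hc
    have h3 : ∀ w ∈ r, ∃ s ∈ cl π ts, w * s⁻¹ ∈ cl π hs := by
      intro w hw
      obtain ⟨s, hs1, y, hy, h5⟩ := hdec w⁻¹
        (B.inv_mem (hB (cl_mono (fun x hx => by simp [hx]) (hx3 w hw))))
      refine ⟨s⁻¹, Subgroup.inv_mem _ hs1, ?_⟩
      rw [← inv_inv w, h5]
      simpa using hy
    choose! es hes hes' using h3
    have hl : ∀ c ∈ r.map (fun b => (b, es b)), c.1 * c.2⁻¹ ∈ cl π hs := by
      intro c hc
      obtain ⟨b, hb, rfl⟩ := List.mem_map.mp hc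
      exact hes' b hb
    have hr : (r.map (fun b => (b, es b))).map (fun c => c.1) = r := by simp [Function.comp_def]
    have h5 := (h hs (r.map fun b => (b, es b)) _ ⟨h1, hr, hl, ⟨ts, h2, h4, by
      intro w hw
      obtain ⟨c, hc, rfl⟩ := List.mem_map.mp hw
      obtain ⟨b, hb, rfl⟩ := List.mem_map.mp hc
      exact hes b hb⟩, rfl⟩).2
    have h6 := hdiff hs _ hl
    rw [hr] at h6
    have h7 : rho π r • a - u ∈ IQ N (hs.map π) := by
      have := AddSubgroup.sub_mem _ h6 h5
      simpa using this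
    refine eq_zero_of_cosetSum (H := Subgroup.closure {y | y ∈ hs.map π})
      (cosetSum_of_mem_IQ ι (fun h hh => Subgroup.subset_closure hh) h7 i) ?_
    intro s hs1 s' hs2 h8
    by_contra hne
    rw [← hsec (s' * s⁻¹), ← mem_cl_iff] at h8
    exact hα3 ⟨_, hHB h8⟩ (Finset.mem_image.mpr
      ⟨(s, s'), Finset.mem_offDiag.mpr ⟨hs1, hs2, hne⟩, rfl⟩) (hfix _ h8)
  · rintro rfl hs l v ⟨h1, h2, h3, -, rfl⟩
    refine ⟨h1, ?_⟩
    have := hdiff hs l h3
    rwa [h2] at this

end Mod

section Free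

variable {L : FirstOrder.Language.{0, 0}} {M : Type} [L.Structure M] [Nontrivial M]
variable [Enc L M ℕ] [DefAdd L M ℕ] [DefMul L M ℕ] {n k : ℕ} {κ : Type}
variable {N : Type} [AddCommGroup N] [Module (ZR (QK n (k + 2))) N] [Enc L M N] [DefAdd L M N]

theorem def_rhoK (ι : N →ₗ[ZR (QK n (k + 2))] (κ → ZR (QK n (k + 2))))
    (hι : Function.Injective ι)
    (hact : DefFun L M (fun p : FG n × N => o (πk n (k + 2) p.1) • p.2))
    (hns : DefFun L M (fun p : ℕ × N => p.1 • p.2)) :
    DefFun L M (fun p : List (FG n) × N => rho (πk n (k + 2)) p.1 • p.2) := by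
  have hker : DefFun L M (fun w : FG n => πk n (k + 2) w = 1) :=
    (DefFun.derived (T := FG n) (k + 2)).congr_iff fun w => πk_eq_one.symm
  have key : ∀ m j q, j + m + 2 = k + 2 → DefFun L M (fun p : (List (FG n) × N) × N =>
      Cls (πk n (k + 2)) (derivedSeries (FG n) j) q p.1.1 ∧
        rho (πk n (k + 2)) p.1.1 • p.1.2 = p.2) := by
    intro m
    induction m with
    | zero =>
      intro j q h
      obtain ⟨q', h1⟩ := exists_cl (n := n) 0 j q h
      exact good_step ι hι hact hker (πk_surj _) (DefFun.derived j) h1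
        (good_base ι hι hact hns hker (fun _ => πk_not_fin _) (DefFun.derived (j + 1)))
    | succ m ih =>
      intro j q h
      obtain ⟨q', h1⟩ := exists_cl (n := n) (m + 1) j q h
      exact good_step ι hι hact hker (πk_surj _) (DefFun.derived j) h1
        (ih (j + 1) _ (by omega))
  refine DefFun.of_graph (R := fun p u => Cls (πk n (k + 2)) (derivedSeries (FG n) 0)
    (gens n).length p.1 ∧ rho (πk n (k + 2)) p.1 • p.2 = u) (key k 0 _ (by omega)) ?_
  intro p u
  refine and_iff_right ⟨gens n, rfl, by simp, fun w hw => ?_⟩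
  clear hw
  induction w using FreeGroup.induction_on with
  | C1 => exact Subgroup.one_mem _
  | of i => exact mem_cl (mem_gens.mpr ⟨i, Or.inl rfl⟩)
  | inv_of i _ => exact mem_cl (mem_gens.mpr ⟨i, Or.inr rfl⟩)
  | mul u v hu hv => exact Subgroup.mul_mem _ hu hv

end Free

end Pool.Agent.Lib.MP_9cc2ee_lc.All
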