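import Pool.Agent.Lib.MP_9cc2ee_lc.All.RhoDef
import Pool.Agent.Lib.MP_9cc2ee_lc.Step

/-!
One step up the derived series, given the definability of the action of coded ring elements.
-/

set_option autoImplicit false
set_option linter.unusedSectionVars false

namespace Pool.Agent.Lib.MP_9cc2ee_lc.All

open FirstOrder Set
open scoped commutatorElement

section Step

variable {L : FirstOrder.Language.{0, 0}} {Γ : Type} [Group Γ] [L.Structure Γ] [Nontrivial Γ]
  [DefMul L Γ Γ]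
variable {Q κ : Type} [Group Q] (d : Der Γ Q κ) (hπ : Function.Surjective d.π)
variable [Enc L Γ ℕ] [DefAdd L Γ ℕ] [DefMul L Γ ℕ]
variable {F : Type} [Group F] [Enc L Γ F] [NDec F] [NDef L Γ F] [DefMul L Γ F]

theorem stepG (p : F →* Γ) (hp : Function.Surjective p)
    (hN : DefFun L Γ (fun g : Γ => d.π g = 1))
    (hN1 : DefFun L Γ (fun g : Γ => d.π g = 1 ∧ d.D g = 0))
    (hcode : DefFun L Γ (fun c : F × Γ => d.π (p c.1) = d.π c.2))
    (hker1 : DefFun L Γ (fun w : F => d.π (p w) = 1 ∧ d.D (p w) = 0))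
    (x : F) (hx : ¬ IsOfFinOrder (d.π (p x)))
    (hG : ∀ [Enc L Γ (d.im hπ)] [DefAdd L Γ (d.im hπ)],
      DefFun L Γ (fun c : F × d.im hπ => o ((d.π.comp p) c.1) • c.2) →
      DefFun L Γ (fun c : ℕ × d.im hπ => c.1 • c.2) →
      DefFun L Γ (fun c : List F × d.im hπ => rho (d.π.comp p) c.1 • c.2))
    (as : List F) (has : ∀ a ∈ as, d.π (p a) = 1)
    (hgen : ∀ u, d.π (p u) = 1 → ∃ s : ZR Q, (∀ t : κ → ZR Q, s • t = 0 → t = 0) ∧
      s • d.D (p u) ∈ Submodule.span (ZR Q) ((fun a => d.D (p a)) '' {a | a ∈ as})) :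
    DefFun L Γ (fun c : F × Γ => d.π (p c.1) = 1 ∧ d.π c.2 = 1 ∧ d.D (p c.1) = d.D c.2) := by
  obtain ⟨e, hadd, hgr, hactΓ⟩ := exists_enc d hπ hN hN1
  let dF := d.comp p
  have hπF : Function.Surjective (d.π.comp p) := hπ.comp hp
  have hker : DefFun L Γ (fun w : F => (d.π.comp p) w = 1) :=
    (DefFun.comp₂ (fun (w : F) (g : Γ) => d.π (p w) = d.π g) hcode DefFun.id
      (DefFun.const 1)).congr_iff fun w => by simp
  have hact : DefFun L Γ (fun c : F × d.im hπ => o ((d.π.comp p) c.1) • c.2) := by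
    refine DefFun.of_graph (R := fun c u => ∃ g : Γ, d.π (p c.1) = d.π g ∧ o (d.π g) • c.2 = u)
      ?_ ?_
    · exact DefFun.ex (DefFun.and
        (DefFun.comp₂ (fun (w : F) (g : Γ) => d.π (p w) = d.π g) hcode (by fun_prop) (by fun_prop))
        (DefFun.eq (DefFun.comp₂ (fun (g : Γ) (t : d.im hπ) => o (d.π g) • t) hactΓ
          (by fun_prop) (by fun_prop)) (by fun_prop)))
    rintro ⟨w, t⟩ u
    constructor
    · rintro ⟨g, h1, rfl⟩
      simp only at h1
      rw [← h1]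
      rfl
    · rintro rfl
      exact ⟨p w, rfl, rfl⟩
  have hι : Function.Injective (d.im hπ).subtype := Subtype.val_injective
  have hns := def_nsmul (d.im hπ).subtype hι hact x hx
  have hrho := hG hact hns
  have hrho' : ∀ {S : Type} [Enc L Γ S] {r : S → List F} {y : S → d.im hπ}, DefFun L Γ r →
      DefFun L Γ y → DefFun L Γ (fun s => rho (d.π.comp p) (r s) • y s) := by
    intro S _ r y hr hy
    exact DefFun.comp₂ (fun (r : List F) (t : d.im hπ) => rho (d.π.comp p) r • t) hrho hr hy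
  have hZ : ∀ bs : List F, (∀ a ∈ bs, d.π (p a) = 1) →
      DefFun L Γ (fun c : F × d.im hπ => d.π (p c.1) = 1 ∧
        d.D (p c.1) ∈ Submodule.span (ZR Q) ((fun a => d.D (p a)) '' {a | a ∈ bs}) ∧
        d.D (p c.1) = c.2.1) := by
    intro bs hbs
    induction bs with
    | nil =>
      refine DefFun.congr_iff (P := fun c : F × d.im hπ =>
        (d.π (p c.1) = 1 ∧ d.D (p c.1) = 0) ∧ c.2 = 0)
        (DefFun.and (hker1.comp (by fun_prop)) (by fun_prop)) ?_
      rintro ⟨w, t⟩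
      simp only [List.not_mem_nil, ofPred_false, image_empty, Submodule.span_empty,
        Submodule.mem_bot, and_assoc, Subtype.ext_iff, ZeroMemClass.coe_zero]
      refine and_congr_right fun _ => and_congr_right fun h => ?_
      rw [h, eq_comm]
    | cons a bs ih =>
      have ih' := ih fun b hb => hbs b (List.mem_cons_of_mem _ hb)
      have ha := hbs a List.mem_cons_self
      let a' : d.im hπ := ⟨d.D (p a), p a, ha, rfl⟩
      refine DefFun.congr_iff (P := fun c : F × d.im hπ => (d.π.comp p) c.1 = 1 ∧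
        ∃ r₁ r₂ : List F, ∃ w' : F, ∃ t' : d.im hπ,
          (d.π (p w') = 1 ∧
            d.D (p w') ∈ Submodule.span (ZR Q) ((fun a => d.D (p a)) '' {a | a ∈ bs}) ∧
            d.D (p w') = t'.1) ∧
          (d.π (p (c.1 * actF r₂ a * (actF r₁ a * w')⁻¹)) = 1 ∧
            d.D (p (c.1 * actF r₂ a * (actF r₁ a * w')⁻¹)) = 0) ∧
          c.2 + rho (d.π.comp p) r₂ • a' = rho (d.π.comp p) r₁ • a' + t') ?_ ?_
      · refine DefFun.and (hker.comp (by fun_prop)) (DefFun.ex (DefFun.ex (DefFun.ex (DefFun.ex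
          (DefFun.and (DefFun.comp₂ (fun (w : F) (t : d.im hπ) => d.π (p w) = 1 ∧
            d.D (p w) ∈ Submodule.span (ZR Q) ((fun a => d.D (p a)) '' {a | a ∈ bs}) ∧
            d.D (p w) = t.1) ih' ?_ ?_) (DefFun.and (hker1.comp
              (DefFun.mul (DefFun.mul ?_ (def_actF ?_ ?_))
                (DefFun.inv (DefFun.mul (def_actF ?_ ?_) ?_))))
              (DefFun.eq (DefFun.add ?_ (hrho' ?_ ?_)) (DefFun.add (hrho' ?_ ?_) ?_))))))))
          <;> fun_prop
      rintro ⟨w, t⟩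
      refine and_congr_right fun hw => ?_
      have hw' : dF.π w = 1 := hw
      have ha' : dF.π a = 1 := ha
      have himg : ((fun a => d.D (p a)) '' {b | b ∈ a :: bs}) =
          insert (d.D (p a)) ((fun a => d.D (p a)) '' {a | a ∈ bs}) := by
        rw [← image_insert_eq (f := fun a => d.D (p a))]
        congr 1
        ext b
        simp
      rw [himg, Submodule.mem_span_insert]
      have hrel : ∀ (r₁ r₂ : List F) (w' : F), dF.π w' = 1 →
          ((d.π (p (w * actF r₂ a * (actF r₁ a * w')⁻¹)) = 1 ∧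
            d.D (p (w * actF r₂ a * (actF r₁ a * w')⁻¹)) = 0) ↔
          dF.D w + rho dF.π r₂ • dF.D a = rho dF.π r₁ • dF.D a + dF.D w') := by
        intro r₁ r₂ w' h'
        have h1 := actF_spec dF r₁ ha'
        have h2 := actF_spec dF r₂ ha'
        have := dF.eq_iff (u := w * actF r₂ a) (v := actF r₁ a * w')
        rw [map_mul, map_mul, hw', h', h1.1, h2.1, dF.D_mul_ker hw', dF.D_mul_ker h1.1, h1.2,
          h2.2] at this
        exact this.symm.trans (by simp)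
      constructor
      · rintro ⟨r₁, r₂, w', t', ⟨h1, h2, h3⟩, h4, h5⟩
        have h6 := (hrel r₁ r₂ w' h1).mp h4
        have h7 := congrArg Subtype.val h5
        refine ⟨⟨rho dF.π r₁ - rho dF.π r₂, d.D (p w'), h2, ?_⟩, ?_⟩
        · rw [sub_smul]
          exact (eq_sub_of_add_eq h6).trans (by
            show _ = _ • dF.D a - _ • dF.D a + dF.D w'
            abel)
        · have h8 : t.1 + rho dF.π r₂ • dF.D a = rho dF.π r₁ • dF.D a + t'.1 := h7
          rw [← h3] at h8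
          exact add_right_cancel (h6.trans h8.symm)
      · rintro ⟨⟨s, z, hz, h1⟩, h2⟩
        obtain ⟨r₁, r₂, rfl⟩ := exists_rho (d.π.comp p) hπF s
        have hz' : z ∈ dF.im hπF := by
          have e1 : z = dF.D w - (rho (d.π.comp p) r₁ - rho (d.π.comp p) r₂) • dF.D a :=
            eq_sub_of_add_eq' h1.symm
          rw [e1]
          exact Submodule.sub_mem _ ⟨w, hw', rfl⟩ (Submodule.smul_mem _ _ ⟨a, ha', rfl⟩)
        obtain ⟨w', h3, rfl⟩ := hz'
        have h6 : dF.D w + rho dF.π r₂ • dF.D a = rho dF.π r₁ • dF.D a + dF.D w' := by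
          have h1' : dF.D w = (rho dF.π r₁ - rho dF.π r₂) • dF.D a + dF.D w' := h1
          rw [h1', sub_smul]
          abel
        refine ⟨r₁, r₂, w', ⟨d.D (p w'), p w', h3, rfl⟩, ⟨h3, hz, rfl⟩,
          (hrel r₁ r₂ w' h3).mpr h6, Subtype.ext ?_⟩
        show t.1 + rho dF.π r₂ • dF.D a = rho dF.π r₁ • dF.D a + dF.D w'
        rw [← h6]
        congr 1
        exact h2.symm
  have hZ' := hZ as has
  refine DefFun.congr_iff (P := fun c : F × Γ => (d.π.comp p) c.1 = 1 ∧ ∃ t : d.im hπ,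
    (d.π c.2 = 1 ∧ d.D c.2 = t.1) ∧ ∃ s₁ s₂ : List F,
      (All fun v : d.im hπ => Imp (rho (d.π.comp p) s₁ • v = rho (d.π.comp p) s₂ • v) (v = 0)) ∧
      ∃ t' : d.im hπ, (d.π (p (actF s₁ c.1 * (actF s₂ c.1)⁻¹)) = 1 ∧
        d.D (p (actF s₁ c.1 * (actF s₂ c.1)⁻¹)) ∈
          Submodule.span (ZR Q) ((fun a => d.D (p a)) '' {a | a ∈ as}) ∧
        d.D (p (actF s₁ c.1 * (actF s₂ c.1)⁻¹)) = t'.1) ∧
        rho (d.π.comp p) s₁ • t = rho (d.π.comp p) s₂ • t + t') ?_ ?_
  · refine DefFun.and (hker.comp (by fun_prop)) (DefFun.ex (DefFun.and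
      (DefFun.comp₂ (fun (g : Γ) (t : d.im hπ) => d.π g = 1 ∧ d.D g = t.1) hgr ?_ ?_)
      (DefFun.ex (DefFun.ex (DefFun.and (DefFun.all (DefFun.imp
        (DefFun.eq (hrho' ?_ ?_) (hrho' ?_ ?_)) ?_))
        (DefFun.ex (DefFun.and (DefFun.comp₂ (fun (w : F) (t : d.im hπ) => d.π (p w) = 1 ∧
            d.D (p w) ∈ Submodule.span (ZR Q) ((fun a => d.D (p a)) '' {a | a ∈ as}) ∧
            d.D (p w) = t.1) hZ' (DefFun.mul (def_actF ?_ ?_) (DefFun.inv (def_actF ?_ ?_))) ?_)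
          (DefFun.eq (hrho' ?_ ?_) (DefFun.add (hrho' ?_ ?_) ?_))))))))) <;> fun_prop
  rintro ⟨w, g⟩
  refine and_congr_right fun hw => ?_
  have hw' : dF.π w = 1 := hw
  have hval : ∀ s₁ s₂ : List F, d.π (p (actF s₁ w * (actF s₂ w)⁻¹)) = 1 ∧
      d.D (p (actF s₁ w * (actF s₂ w)⁻¹)) = (rho dF.π s₁ - rho dF.π s₂) • dF.D w := by
    intro s₁ s₂
    have h1 := actF_spec dF s₁ hw'
    have h2 := actF_spec dF s₂ hw'
    refine ⟨?_, ?_⟩
    · show dF.π _ = 1
      rw [map_mul, map_inv, h1.1, h2.1, inv_one, one_mul]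
    · show dF.D _ = _
      rw [dF.D_mul_ker h1.1, dF.D_inv_ker h2.1, h1.2, h2.2, sub_smul, sub_eq_add_neg]
  simp only [All, Imp]
  constructor
  · rintro ⟨t, ⟨h1, h2⟩, s₁, s₂, h3, t', ⟨-, -, h4⟩, h5⟩
    refine ⟨h1, ?_⟩
    rw [(hval s₁ s₂).2] at h4
    let w' : d.im hπ := ⟨dF.D w, p w, hw, rfl⟩
    have h6 : t - w' = 0 := by
      apply h3
      apply Subtype.ext
      have h7 : rho dF.π s₁ • t.1 = rho dF.π s₂ • t.1 + t'.1 := congrArg Subtype.val h5
      show rho dF.π s₁ • (t.1 - dF.D w) = rho dF.π s₂ • (t.1 - dF.D w)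
      rw [smul_sub, smul_sub, h7, ← h4, sub_smul]
      abel
    rw [h2, sub_eq_zero.mp h6]
    rfl
  · rintro ⟨h1, h2⟩
    obtain ⟨s, h3, h4⟩ := hgen w hw
    obtain ⟨s₁, s₂, rfl⟩ := exists_rho (d.π.comp p) hπF s
    refine ⟨⟨d.D g, g, h1, rfl⟩, ⟨h1, rfl⟩, s₁, s₂, ?_,
      ⟨_, _, (hval s₁ s₂).1, rfl⟩, ⟨(hval s₁ s₂).1, ?_, rfl⟩, ?_⟩
    · intro v hv
      apply Subtype.ext
      apply h3
      have h7 : rho dF.π s₁ • v.1 = rho dF.π s₂ • v.1 := congrArg Subtype.val hv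
      exact (sub_smul _ _ _).trans (sub_eq_zero.mpr h7)
    · rw [(hval s₁ s₂).2]
      exact h4
    · apply Subtype.ext
      show rho dF.π s₁ • d.D g = rho dF.π s₂ • d.D g + d.D (p (actF s₁ w * (actF s₂ w)⁻¹))
      have h2' : dF.D w = d.D g := h2
      rw [(hval s₁ s₂).2, sub_smul, h2']
      abel

end Step

end Pool.Agent.Lib.MP_9cc2ee_lc.All
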