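import Pool.Agent.Lib.MP_9cc2ee_lc.Sep

/-!
Tools: avoiding subspaces, equivariant projections, additive maps on group rings.
-/

set_option autoImplicit false

namespace Pool.Agent.Lib.MP_9cc2ee_lc.All

open scoped commutatorElement

theorem avoid {l : ℕ} [Fact l.Prime] {V ι : Type} [AddCommGroup V] [Module (ZMod l) V] [Fintype ι]
    (p : ι → Submodule (ZMod l) V) (h : ∀ i, p i ≠ ⊤) (hc : Fintype.card ι < l) :
    ∃ v, ∀ i, v ∉ p i := by
  have h1 := Submodule.iUnion_ssubset_of_forall_ne_top_of_card_lt Finset.univ p h (by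
    rw [ENat.card_eq_coe_fintype_card, ZMod.card, Finset.card_univ]
    exact_mod_cast hc)
  obtain ⟨v, -, hv⟩ := Set.exists_of_ssubset h1
  exact ⟨v, by simpa using hv⟩

theorem maschke {B : Type} [Group B] {l : ℕ} [Fact l.Prime] {P : Type} [AddCommGroup P]
    [Module (ZMod l) P] [Finite P] (σ : B →* Module.End (ZMod l) P) {e : ℕ} (he : ¬ l ∣ e)
    (hσ : ∀ b, σ b ^ e = 1) (U : Submodule (ZMod l) P) (hU : ∀ b, ∀ v ∈ U, σ b v ∈ U) :
    ∃ pr : P →ₗ[ZMod l] P, (∀ v, pr v ∈ U) ∧ (∀ v ∈ U, pr v = v) ∧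
      ∀ b v, pr (σ b v) = σ b (pr v) := by
  classical
  have : Finite (Module.End (ZMod l) P) := DFunLike.finite _
  let G := σ.toHomUnits.range
  have : Fintype G := Fintype.ofFinite G
  have hG : (Fintype.card G : ZMod l) ≠ 0 := by
    rw [Ne, ZMod.natCast_eq_zero_iff]
    intro h
    obtain ⟨⟨_, b, rfl⟩, hg⟩ := exists_prime_orderOf_dvd_card l h
    apply he
    rw [← hg, orderOf_dvd_iff_pow_eq_one]
    ext v
    simpa using congrArg (fun f : Module.End (ZMod l) P => f v) (hσ b)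
  obtain ⟨U', hc⟩ := U.exists_isCompl
  obtain ⟨p0, h1, h2⟩ : ∃ p0 : P →ₗ[ZMod l] P, (∀ v, p0 v ∈ U) ∧ ∀ v ∈ U, p0 v = v := by
    obtain ⟨f, hf⟩ := U.subtype.exists_leftInverse_of_injective U.ker_subtype
    exact ⟨U.subtype ∘ₗ f, fun v => (f v).2, fun v hv =>
      congrArg Subtype.val (LinearMap.congr_fun hf ⟨v, hv⟩)⟩
  let ρ : G →* Module.End (ZMod l) P := (Units.coeHom _).comp G.subtype
  have hρ : ∀ g : G, ∀ v ∈ U, ρ g v ∈ U := by
    rintro ⟨_, b, rfl⟩ v hv
    exact hU b v hv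
  have hmul : ∀ (g h : G) v, ρ g (ρ h v) = ρ (g * h) v := fun g h v => by rw [map_mul]; rfl
  refine ⟨(Fintype.card G : ZMod l)⁻¹ • ∑ g : G, ρ g ∘ₗ p0 ∘ₗ ρ g⁻¹, fun v => ?_, fun v hv => ?_,
    fun b v => ?_⟩
  · simp only [LinearMap.smul_apply, LinearMap.sum_apply, LinearMap.comp_apply]
    exact U.smul_mem _ (U.sum_mem fun g _ => hρ g _ (h1 _))
  · simp only [LinearMap.smul_apply, LinearMap.sum_apply, LinearMap.comp_apply]
    rw [Finset.sum_congr rfl (g := fun _ => v) fun g _ => by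
      rw [h2 _ (hρ _ _ hv), hmul, mul_inv_cancel, map_one]; rfl]
    rw [Finset.sum_const, Finset.card_univ, ← Nat.cast_smul_eq_nsmul (ZMod l), smul_smul,
      inv_mul_cancel₀ hG, one_smul]
  · let g0 : G := ⟨σ.toHomUnits b, b, rfl⟩
    have e0 : σ b = ρ g0 := rfl
    simp only [LinearMap.smul_apply, LinearMap.sum_apply, LinearMap.comp_apply, map_smul, map_sum,
      e0, hmul]
    congr 1
    refine (Fintype.sum_equiv (Equiv.mulLeft g0) _ _ fun g => ?_).symm
    simp [mul_assoc]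

section Lift

variable {Q P : Type} [Group Q] [AddCommGroup P]

/-- The additive map on the group ring with given values on the group. -/
noncomputable def liftZ (f : Q → P) : ZR Q →+ P :=
  (Finsupp.liftAddHom fun b => zmultiplesHom P (f b)).comp
    (MonoidAlgebra.coeffAddEquiv (R := ℤ) (M := Q)).toAddMonoidHom

theorem liftZ_single (f : Q → P) (g : Q) (z : ℤ) :
    liftZ f (MonoidAlgebra.single g z) = z • f g := by
  simp [liftZ]

theorem liftZ_o (f : Q → P) (g : Q) : liftZ f (o g) = f g := by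
  rw [o, liftZ_single, one_smul]

theorem liftZ_key {P' : Type} [AddCommGroup P'] (f : Q → P) (γ : P →+ P') (ρ : ZR Q)
    (h : ∀ g ∈ ρ.coeff.support, g ≠ 1 → γ (f g) = 0) :
    γ (liftZ f ρ) = ρ.coeff 1 • γ (f 1) := by
  have e : liftZ f ρ = ρ.coeff.sum fun g z => z • f g := by
    simp [liftZ, Finsupp.liftAddHom_apply]
    rfl
  rw [e, map_finsuppSum, Finsupp.sum_eq_single 1]
  · rw [map_zsmul]
  · intro g hg h1
    rw [map_zsmul, h g (Finsupp.mem_support_iff.mpr hg) h1, smul_zero]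
  · intro _
    simp

theorem liftZ_mem (f : Q → P) (S : AddSubgroup P) (h : ∀ g, f g ∈ S) (ρ : ZR Q) :
    liftZ f ρ ∈ S := by
  induction ρ using MonoidAlgebra.induction_linear with
  | zero => simp
  | add a b ha hb => rw [map_add]; exact S.add_mem ha hb
  | single g z => rw [liftZ_single]; exact S.zsmul_mem (h g) z

theorem liftZ_mul (f : Q → P) (q : Q) (γ : P →+ P) (h : ∀ g, f (q * g) = γ (f g)) (ρ : ZR Q) :
    liftZ f (o q * ρ) = γ (liftZ f ρ) := by
  induction ρ using MonoidAlgebra.induction_linear with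
  | zero => simp
  | add a b ha hb => rw [mul_add, map_add, map_add, map_add, ha, hb]
  | single g z =>
    rw [o, MonoidAlgebra.single_mul_single, one_mul, liftZ_single, liftZ_single, h, map_zsmul]

theorem eq_zero_of_mul_sub_one {q : Q} (hq : ¬ IsOfFinOrder q) {r : ZR Q}
    (h : r * (o q - 1) = 0) : r = 0 := by
  by_contra hr
  obtain ⟨b, hb⟩ : ∃ b, r.coeff b ≠ 0 := by
    by_contra h2
    push Not at h2
    exact hr (MonoidAlgebra.coeff_eq_zero.mp (Finsupp.ext h2))
  rw [mul_sub, mul_one, sub_eq_zero] at h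
  have key : ∀ j : ℕ, r.coeff (b * q ^ j) ≠ 0 := by
    intro j
    induction j with
    | zero => simpa using hb
    | succ j ih =>
      rw [← h, o, MonoidAlgebra.coeff_mul_single_apply]
      simpa [pow_succ, mul_assoc] using ih
  have hinj : Function.Injective fun j : ℕ => b * q ^ j := by
    intro i j hij
    exact (injective_pow_iff_not_isOfFinOrder.mpr hq) (mul_left_cancel hij)
  exact Set.infinite_of_injective_forall_mem hinj (s := (r.coeff.support : Set Q))
    (fun j => by simpa using key j) (Finset.finite_toSet _)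

theorem coeff_mul_o_inv (r : ZR Q) (s : Q) : (r * o s⁻¹).coeff 1 = r.coeff s := by
  rw [o, MonoidAlgebra.coeff_mul_single_apply]
  simp

theorem exists_coeff {r : ZR Q} (hr : r ≠ 0) : ∃ b, r.coeff b ≠ 0 := by
  by_contra h2
  push Not at h2
  exact hr (MonoidAlgebra.coeff_eq_zero.mp (Finsupp.ext h2))

theorem exists_psi {κ : Type} (S : Finset (κ → ZR Q)) (hS : ∀ t ∈ S, t ≠ 0) :
    ∃ ψ : (κ → ZR Q) →+ ℤ, ∀ t ∈ S, ψ t ≠ 0 := by
  classical
  induction S using Finset.induction_on with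
  | empty => exact ⟨0, by simp⟩
  | insert t S _ ih =>
    obtain ⟨ψ, hψ⟩ := ih fun t ht => hS t (Finset.mem_insert_of_mem ht)
    by_cases h0 : ψ t = 0
    · obtain ⟨i, hi⟩ := Function.ne_iff.mp (hS t (Finset.mem_insert_self _ _))
      obtain ⟨b, hb⟩ : ∃ b, (t i).coeff b ≠ 0 := by
        by_contra h2
        push Not at h2
        exact hi (MonoidAlgebra.coeff_eq_zero.mp (Finsupp.ext h2))
      let γ : (κ → ZR Q) →+ ℤ := AddMonoidHom.mk' (fun u => (u i).coeff b) (by simp)
      let N : ℕ := (S.sup fun u => (γ u).natAbs) + 1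
      refine ⟨N • ψ + γ, fun u hu => ?_⟩
      rcases Finset.mem_insert.mp hu with rfl | hu
      · have e : γ u = (u i).coeff b := rfl
        simpa [h0, e] using hb
      · have h1 : (γ u).natAbs ≤ S.sup fun u => (γ u).natAbs :=
          Finset.le_sup (f := fun u => (γ u).natAbs) hu
        have h2 := Int.natAbs_pos.mpr (hψ u hu)
        intro h3
        simp only [AddMonoidHom.add_apply, AddMonoidHom.nsmul_apply, nsmul_eq_mul] at h3
        have h4 : (γ u).natAbs = N * (ψ u).natAbs := by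
          rw [eq_neg_of_add_eq_zero_right h3, Int.natAbs_neg, Int.natAbs_mul, Int.natAbs_natCast]
        have h5 : N ≤ N * (ψ u).natAbs := Nat.le_mul_of_pos_right _ h2
        omega
    · exact ⟨ψ, fun u hu => by
        rcases Finset.mem_insert.mp hu with rfl | hu
        · exact h0
        · exact hψ u hu⟩

end Lift

section Sub

variable {F Q κ : Type} [Group F] [Group Q]

/-- The subgroup generated by a list and the kernel. -/
def cl (π : F →* Q) (xs : List F) : Subgroup F := Subgroup.closure {y | y ∈ xs ∨ π y = 1}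

theorem mem_cl {π : F →* Q} {xs : List F} {x : F} (h : x ∈ xs) : x ∈ cl π xs :=
  Subgroup.subset_closure (Or.inl h)

theorem ker_cl {π : F →* Q} {xs : List F} {x : F} (h : π x = 1) : x ∈ cl π xs :=
  Subgroup.subset_closure (Or.inr h)

theorem cl_le {π : F →* Q} {xs : List F} {B : Subgroup F} (h : ∀ x ∈ xs, x ∈ B)
    (h' : ∀ x, π x = 1 → x ∈ B) : cl π xs ≤ B :=
  (Subgroup.closure_le _).mpr fun x hx => hx.elim (h x) (h' x)

/-- The derivatives of the elements of a subgroup that lie in the kernel. -/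
def imA (d : Der F Q κ) (H : Subgroup F) : AddSubgroup (κ → ZR Q) where
  carrier := {t | ∃ a ∈ H, d.π a = 1 ∧ d.D a = t}
  add_mem' := by
    rintro _ _ ⟨a, h1, ha, rfl⟩ ⟨b, h2, hb, rfl⟩
    exact ⟨a * b, H.mul_mem h1 h2, by simp [ha, hb], d.D_mul_ker ha b⟩
  zero_mem' := ⟨1, H.one_mem, by simp, d.D_one⟩
  neg_mem' := by
    rintro _ ⟨a, h1, ha, rfl⟩
    exact ⟨a⁻¹, H.inv_mem h1, by simp [ha], d.D_inv_ker ha⟩

/-- Elements of the kernel whose derivative lies in a given subgroup. -/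
def kerA (d : Der F Q κ) (S : AddSubgroup (κ → ZR Q)) : Subgroup F where
  carrier := {u | d.π u = 1 ∧ d.D u ∈ S}
  mul_mem' := by
    rintro a b ⟨h1, h2⟩ ⟨h3, h4⟩
    exact ⟨by simp [h1, h3], by rw [d.D_mul_ker h1]; exact S.add_mem h2 h4⟩
  one_mem' := ⟨by simp, by rw [d.D_one]; exact S.zero_mem⟩
  inv_mem' := by
    rintro a ⟨h1, h2⟩
    exact ⟨by simp [h1], by rw [d.D_inv_ker h1]; exact S.neg_mem h2⟩

end Sub

end Pool.Agent.Lib.MP_9cc2ee_lc.All
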